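import Pool.Agent.MP_257582_lc.H99.Sieve
import Pool.Agent.MP_18a942_nt.Avg

/-! Upper bounds for the small prime factors of shifted primes. -/

set_option autoImplicit false

namespace Pool.Agent.MP_257582_lc.H99

open Finset ArithmeticFunction Pool.Agent.MP_e3ece1_pr Pool.Agent.MP_a96b63_al

/-- the Mertens sum -/
noncomputable def MM (y : ℕ) : ℝ := ∑ d ∈ Ioc 0 y, Λ d / d

lemma mertens {y : ℕ} (hy : 0 < y) : Real.log y - 1 ≤ MM y ∧ MM y ≤ Real.log y + 6 := by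
  have hy' : (0 : ℝ) < y := by exact_mod_cast hy
  have e : ∑ n ∈ Ioc 0 y, Real.log n = ∑ d ∈ Ioc 0 y, Λ d * (y / d : ℕ) := by
    have := sum_conv Λ zet (fun _ => 1) y
    simp only [mul_one, zet, vonMangoldt_mul_zeta, log_apply] at this
    rw [this]
    refine sum_congr rfl fun d _ => ?_
    rw [sum_congr rfl fun k hk => show _ = (1 : ℝ) by simp [(mem_Ioc.1 hk).1.ne']]
    simp
  have h1 : y * Real.log y - y ≤ ∑ n ∈ Ioc 0 y, Real.log n := by
    have a1 := Real.log_le_log (by positivity) (Real.pow_div_factorial_le_exp (y : ℝ) hy'.le y)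
    rw [Real.log_exp, Real.log_div (by positivity) (by positivity), Real.log_pow,
      ← prod_Ico_id_eq_factorial, Nat.cast_prod, Real.log_prod fun n hn => by
        exact_mod_cast (Nat.ne_of_gt (mem_Ico.1 hn).1)] at a1
    exact sub_le_comm.1 a1
  have h2 : ∑ n ∈ Ioc 0 y, Real.log n ≤ y * Real.log y := by
    simpa using sum_le_card_nsmul (Ioc 0 y) (fun n : ℕ => Real.log n) _ fun n hn =>
      log_mono (mem_Ioc.1 hn).2
  have h3 := Chebyshev.psi_le_const_mul_self hy'.le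
  have h4 : Real.log 4 ≤ 2 := by
    rw [show (4 : ℝ) = 2 ^ 2 by norm_num, Real.log_pow]
    have := Real.log_two_lt_d9
    push_cast
    linarith
  have h5 : ∑ d ∈ Ioc 0 y, Λ d * (y / d : ℕ) ≤ y * MM y := by
    rw [MM, mul_sum]
    refine sum_le_sum fun d _ => ?_
    rw [mul_div_left_comm]
    exact mul_le_mul_of_nonneg_left Nat.cast_div_le vonMangoldt_nonneg
  have h6 : y * MM y ≤ ∑ d ∈ Ioc 0 y, Λ d * (y / d : ℕ) + Chebyshev.psi y := by
    rw [MM, mul_sum, Chebyshev.psi, Nat.floor_natCast, ← sum_add_distrib]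
    refine sum_le_sum fun d hd => ?_
    rw [mul_div_left_comm, ← mul_add_one]
    refine mul_le_mul_of_nonneg_left ?_ vonMangoldt_nonneg
    rw [div_le_iff₀ (by exact_mod_cast (mem_Ioc.1 hd).1)]
    exact_mod_cast (by simpa [mul_comm] using (Nat.lt_mul_div_succ y (mem_Ioc.1 hd).1).le :
      y ≤ (y / d + 1) * d)
  constructor <;> refine le_of_mul_le_mul_left ?_ hy' <;> nlinarith

lemma bt {d z X : ℕ} (a : ℕ) (hd : IsPrimePow d) (hz : 2 ≤ z) {S : Finset ℕ}
    (hS : ∀ r ∈ S, r.Prime ∧ z < r ∧ r ≤ X) :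
    (#(S.filter (· ≡ a [MOD d])) : ℝ) ≤ (X / d + 1 : ℕ) * 2 / Real.log z + 2 * (z : ℝ) ^ 4 := by
  have h1 := sieve_one hd.ne_zero hz (a % d) (X / d + 1)
  have h2 : hh d ≤ 2 := by
    obtain ⟨q, k, hq, hk, rfl⟩ := (isPrimePow_nat_iff d).1 hd
    have : (2 : ℝ) ≤ q := by exact_mod_cast hq.two_le
    rw [hh, Nat.primeFactors_prime_pow hk.ne' hq, prod_singleton]
    linarith [(div_le_one (by linarith)).2 (by linarith : (1 : ℝ) ≤ q - 1)]
  have h3 := Real.log_natCast_nonneg z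
  refine le_trans (Nat.cast_le.2 (card_le_card_of_injOn (· / d) (fun r hr => ?_)
    fun r hr r' hr' e => ?_)) (h1.trans (by gcongr))
  · simp only [coe_filter, Set.mem_ofPred_eq, mem_range] at hr ⊢
    obtain ⟨a1, a2, a3⟩ := hS r hr.1
    rw [← hr.2, Nat.mod_add_div]
    exact ⟨Nat.lt_succ_of_le (Nat.div_le_div_right a3), a1, a2⟩
  · simp only [coe_filter, Set.mem_ofPred_eq] at hr hr' e
    rw [← Nat.div_add_mod r d, ← Nat.div_add_mod r' d, e, hr.2.trans hr'.2.symm]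

lemma sum_hh_sq (D : ℕ) : ∑ h ∈ Ioc 0 D, hh h ^ 2 ≤ 32 * D := by
  set Q := (Ioc 2 D).filter Nat.Prime with hQ
  have hQ' : ∀ q ∈ Q, q.Prime ∧ 2 < q := fun q hq =>
    ⟨(mem_filter.mp hq).2, (mem_Ioc.mp (mem_filter.mp hq).1).1⟩
  have h1 := MP_18a942_nt.large_part (k := 2) one_le_two Q hQ' D
  refine le_trans (sum_le_sum fun h hh' => ?_) ((mul_sum _ _ _).ge.trans
    ((mul_le_mul_of_nonneg_left h1 (by norm_num : (0 : ℝ) ≤ 4)).trans_eq (by ring)))
  obtain ⟨h2, h3⟩ := mem_Ioc.mp hh'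
  have h4 : ∏ q ∈ Q, (1 + if q ∣ h then 1 / ((q : ℝ) - 1) else 0) =
      ∏ q ∈ Q with q ∣ h, (1 + 1 / ((q : ℝ) - 1)) := by
    rw [prod_filter (s := Q)]
    refine prod_congr rfl fun q _ => ?_
    split_ifs <;> simp
  have h5 : (2 : ℕ) ∉ Q.filter (· ∣ h) := fun k => lt_irrefl _ (hQ' 2 (mem_filter.mp k).1).2
  have h6 : ∀ q ∈ insert 2 (Q.filter (· ∣ h)), q.Prime := fun q hq =>
    (mem_insert.mp hq).elim (fun e => e ▸ Nat.prime_two) fun k => (hQ' q (mem_filter.mp k).1).1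
  have h7 : hh h ≤ ∏ q ∈ insert 2 (Q.filter (· ∣ h)), (1 + 1 / ((q : ℝ) - 1)) := by
    refine prod_le_prod_of_subset_of_one_le (fun q hq => ?_)
      (fun q hq => by have := inv_pred_nonneg (Nat.prime_of_mem_primeFactors hq); linarith)
      fun q hq _ => by have := inv_pred_nonneg (h6 q hq); linarith
    obtain ⟨a, b, -⟩ := Nat.mem_primeFactors.mp hq
    have := a.two_le
    have := Nat.le_of_dvd h2 b
    simp only [hQ, mem_insert, mem_filter, mem_Ioc]
    rcases eq_or_ne q 2 with e | e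
    · exact Or.inl e
    · exact Or.inr ⟨⟨⟨by omega, by omega⟩, a⟩, b⟩
  rw [prod_insert h5, ← h4] at h7
  refine (pow_le_pow_left₀ (hh_pos h).le h7 2).trans_eq ?_
  rw [mul_pow]
  norm_num

lemma sum_hh_div {K J : ℕ} (hK : K < 2 ^ J) : ∑ k ∈ Ioc 0 K, hh (2 * k) ^ 2 / k ≤ 128 * J := by
  refine (sum_le_sum_of_subset_of_nonneg (t := Ico 1 (2 ^ J)) (fun k hk => by
    simp only [mem_Ioc, mem_Ico] at hk ⊢
    omega) fun _ _ _ => by positivity).trans ?_
  rw [dyadic, mul_comm]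
  refine (sum_le_card_nsmul _ _ 128 fun j _ => ?_).trans_eq (by rw [card_range, nsmul_eq_mul])
  have h1 := sum_hh_sq (2 ^ (j + 2))
  calc _ ≤ ∑ k ∈ (range (2 ^ (j + 1))).filter (2 ^ j ≤ ·), hh (2 * k) ^ 2 / 2 ^ j := by
        rw [← sum_filter]
        refine sum_le_sum fun k hk => ?_
        gcongr
        exact_mod_cast (mem_filter.1 hk).2
    _ ≤ (∑ h ∈ Ioc 0 (2 ^ (j + 2)), hh h ^ 2) / 2 ^ j := by
        rw [← sum_div, ← sum_image (f := fun h => hh h ^ 2) (g := (2 * ·)) fun _ _ _ _ e => by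
          simpa using e]
        gcongr
        intro h hh'
        obtain ⟨k, hk, rfl⟩ := mem_image.1 hh'
        simp only [mem_filter, mem_range, mem_Ioc, pow_succ] at hk ⊢
        have := Nat.one_le_two_pow (n := j)
        omega
    _ ≤ _ := by
        rw [div_le_iff₀ (by positivity)]
        push_cast at h1
        linarith [pow_add (2 : ℝ) j 2]

lemma pairs {z K n J : ℕ} (hz : 2 ≤ z) (hK : K < 2 ^ J) (hKn : K ≤ n) {S : Finset ℕ}
    (hS : ∀ r ∈ S, r.Prime ∧ r ≤ n ∧ ∃ k ∈ Ioc 0 K, ∃ q, q.Prime ∧ z < q ∧ r = 1 + k * q) :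
    (#S : ℝ) ≤ 256 * J * n / Real.log z ^ 2 + K * (2 * (z : ℝ) ^ 8) := by
  let T : ℕ → Finset ℕ := fun k => (range (n / k + 1)).filter fun t =>
    ((0 + 1 * t).Prime ∧ z < 0 + 1 * t) ∧ (1 + k * t).Prime ∧ z < 1 + k * t
  have h1 : #S ≤ ∑ k ∈ Ioc 0 K, #(T k) := by
    refine (card_le_card (t := (Ioc 0 K).biUnion fun k => (T k).image (1 + k * ·)) fun r hr => ?_).trans
      (card_biUnion_le.trans (sum_le_sum fun k _ => card_image_le))
    obtain ⟨a1, a2, k, hk, q, a3, a4, rfl⟩ := hS r hr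
    have hk0 := (mem_Ioc.1 hk).1
    refine mem_biUnion.2 ⟨k, hk, mem_image_of_mem _ (mem_filter.2 ⟨mem_range.2 (Nat.lt_succ_of_le
      ((Nat.le_div_iff_mul_le hk0).2 (by nlinarith))), by simpa using ⟨a3, a4⟩, a1, by nlinarith⟩)⟩
  have h2 := sum_hh_div hK
  calc _ ≤ ∑ k ∈ Ioc 0 K, (#(T k) : ℝ) := by exact_mod_cast h1
    _ ≤ ∑ k ∈ Ioc 0 K, (2 * n / Real.log z ^ 2 * (hh (2 * k) ^ 2 / k) + 2 * (z : ℝ) ^ 8) := by
        refine sum_le_sum fun k hk => ?_
        obtain ⟨k1, k2⟩ := mem_Ioc.1 hk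
        refine (sieve_two (D := 2 * k) (by omega) hz (dvd_mul_right _ _) (one_dvd _) (dvd_mul_left _ _)
          (fun q hq h => absurd (Int.natCast_dvd_natCast.1 (by simpa using h)) hq.not_dvd_one)
          _).trans (add_le_add_left ?_ _)
        have a1 : ((n / k + 1 : ℕ) : ℝ) ≤ 2 * (n / k) := by
          have := Nat.div_pos (k2.trans hKn) k1
          calc _ ≤ ((2 * (n / k) : ℕ) : ℝ) := by exact_mod_cast (by omega)
            _ ≤ _ := by push_cast; gcongr; exact Nat.cast_div_le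
        calc _ ≤ 2 * (n / k) * hh (2 * k) ^ 2 / Real.log z ^ 2 := by gcongr
          _ = _ := by ring
    _ ≤ 2 * n / Real.log z ^ 2 * (128 * J) + K * (2 * (z : ℝ) ^ 8) := by
        rw [sum_add_distrib, ← mul_sum, sum_const, Nat.card_Ioc, nsmul_eq_mul, Nat.sub_zero]
        gcongr
    _ = _ := by ring

lemma bv_range {s X W Z J y : ℕ} {L F : ℝ} (hW : 0 < W) (hZ : X ≤ Z ^ 2) (hJ : X + 1 < 2 ^ J)
    (hL0 : 0 < L) (hL : Real.log X ≤ L) (h1 : (y : ℝ) * W ^ 4 ≤ F) (h2 : (X : ℝ) / W ≤ F)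
    (h3 : (y : ℝ) * Z ≤ F) (I : ℕ) : ∀ P : Finset ℕ,
    (∀ q ∈ P, q.Prime ∧ ¬ q ∣ s ∧ W ^ 4 < q ∧ q ≤ 4 ^ I * W ^ 4 ∧ q ≤ y) →
    ∑ q ∈ P, |∑ n ∈ Ioc 0 X, Λ n * fq s q n| ≤ I * (L * F * (15 + 2040 * J ^ 2)) := by
  have hF : 0 ≤ F := le_trans (by positivity) h1
  induction I with
  | zero => exact fun P hP => by rw [sum_eq_zero fun q hq => by have := hP q hq; omega]; simp
  | succ I ih =>
    intro P hP
    rw [← sum_filter_add_sum_filter_not P (· ≤ 4 ^ I * W ^ 4), Nat.cast_succ, add_one_mul]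
    refine add_le_add (ih _ fun q hq => ?_) ?_
    · obtain ⟨a1, a2, a3, -, a4⟩ := hP q (mem_filter.1 hq).1
      exact ⟨a1, a2, a3, (mem_filter.1 hq).2, a4⟩
    rcases (P.filter fun q => ¬ q ≤ 4 ^ I * W ^ 4).eq_empty_or_nonempty with h | ⟨q, hq⟩
    · rw [h, sum_empty]; positivity
    have a1 : W ^ 4 ≤ 4 ^ I * W ^ 4 := Nat.le_mul_of_pos_left _ (by positivity)
    have a2 : 4 ^ I * W ^ 4 ≤ y := by
      have := hP q (mem_filter.1 hq).1
      have := (mem_filter.1 hq).2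
      omega
    have a3 : W ≤ 4 ^ I * W ^ 4 := (Nat.le_self_pow (by norm_num) W).trans a1
    refine (bv (Q := 4 ^ I * W ^ 4) (by positivity) (fun q hq => ?_) (fun q hq =>
      (hP q (mem_filter.1 hq).1).2.1) hW a1 hZ hJ hL0 hL).trans ?_
    · have c1 := hP q (mem_filter.1 hq).1
      have c2 := (mem_filter.1 hq).2
      rw [pow_succ' 4, mul_assoc] at c1
      exact ⟨c1.1, by omega, c1.2.2.2.1⟩
    generalize 4 ^ I * W ^ 4 = Q at a1 a2 a3
    have b1 : (Q : ℝ) ≤ y := by exact_mod_cast a2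
    have b2 : (W : ℝ) ≤ Q := by exact_mod_cast a3
    have b3 : (0 : ℝ) < W := by exact_mod_cast hW
    have b4 : (0 : ℝ) < Q := b3.trans_le b2
    have b5 : (4 * X + 6 * Q * (X / W) + 2 * Q ^ 2 * Z : ℝ) / Q ≤ 12 * F := by
      have c1 : (X : ℝ) / Q ≤ X / W := by gcongr
      have c2 : (Q : ℝ) * Z ≤ y * Z := by gcongr
      calc _ = 4 * (X / Q) + 6 * (X / W) + 2 * (Q * Z : ℝ) := by field_simp
        _ ≤ _ := by linarith
    have b6 : (Q : ℝ) * W ^ 4 ≤ F := le_trans (by gcongr) h1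
    calc _ ≤ 15 * F * L + J ^ 2 * (170 * L * (12 * F)) := by
          rw [mul_assoc 15 (Q : ℝ)]
          gcongr
      _ = _ := by ring

/-- a majorant for the logarithm of the smooth part of `N` -/
noncomputable def uu (w y Y n : ℕ) (L : ℝ) (N : ℕ) : ℝ :=
  ∑ d ∈ Ioc 0 (w ^ 4) ∪ Ioc y Y ∪ (Ioc (w ^ 4) y).filter Nat.Prime, (if d ∣ N then Λ d else 0) +
    ∑ t ∈ Ioc w n, if t ^ 2 ∣ N then L else 0

lemma log_le_uu {w y Y n k N : ℕ} {L : ℝ} (hw : 0 < w) (hL : Real.log n ≤ L) (h0 : 0 < N)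
    (hN : N ≤ n) (hk : k ∣ N) (hY : ∀ q, q.Prime → q ∣ k → q ≤ Y) :
    Real.log k ≤ uu w y Y n L N := by
  have hL0 : 0 ≤ L := (Real.log_natCast_nonneg n).trans hL
  have h1 : ∀ t, 0 ≤ if t ^ 2 ∣ N then L else 0 := fun t => by split_ifs <;> simp [hL0]
  by_cases h : ∃ t ∈ Ioc w n, t ^ 2 ∣ N
  · obtain ⟨t, a1, a2⟩ := h
    refine le_add_of_nonneg_of_le (sum_nonneg fun d _ => by split_ifs <;> simp)
      (le_trans ?_ (single_le_sum (fun t _ => h1 t) a1))
    rw [if_pos a2]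
    exact (log_mono ((Nat.le_of_dvd h0 hk).trans hN)).trans hL
  refine le_add_of_le_of_nonneg ?_ (sum_nonneg fun t _ => h1 t)
  rw [← vonMangoldt_sum, ← sum_filter, ← sum_filter_ne_zero]
  refine sum_le_sum_of_subset_of_nonneg (fun d hd => ?_) fun _ _ _ => vonMangoldt_nonneg
  have a1 := Nat.dvd_of_mem_divisors (mem_filter.1 hd).1
  obtain ⟨q, j, hq, hj, rfl⟩ := (isPrimePow_nat_iff d).1
    (vonMangoldt_ne_zero_iff.1 (mem_filter.1 hd).2)
  refine mem_filter.2 ⟨?_, a1.trans hk⟩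
  have a2 := pow_pos hq.pos j
  simp only [mem_union, mem_filter, mem_Ioc]
  by_cases a3 : j = 1
  · subst a3
    rw [pow_one] at *
    have := hY q hq a1
    simp only [hq, and_true]
    omega
  refine Or.inl (Or.inl ⟨a2, not_lt.1 fun a4 => h ⟨q ^ (j / 2), ?_⟩⟩)
  have a5 : (q ^ (j / 2)) ^ 2 ∣ N := by
    rw [← pow_mul]
    exact ((pow_dvd_pow q (by omega)).trans a1).trans hk
  refine ⟨mem_Ioc.2 ⟨lt_of_pow_lt_pow_left₀ 3 (Nat.zero_le _) ?_,
    (Nat.le_self_pow two_ne_zero _).trans ((Nat.le_of_dvd h0 a5).trans hN)⟩, a5⟩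
  rw [← pow_mul]
  exact ((Nat.pow_le_pow_right hw (by norm_num)).trans_lt a4).trans_le
    (Nat.pow_le_pow_right hq.pos (by omega))

lemma sum_union_le {A B : Finset ℕ} {g : ℕ → ℝ} (hg : ∀ d, 0 ≤ g d) :
    ∑ d ∈ A ∪ B, g d ≤ ∑ d ∈ A, g d + ∑ d ∈ B, g d := by
  rw [← sum_union_inter]
  exact le_add_of_nonneg_right (sum_nonneg fun d _ => hg d)

lemma small {w y Y z X n a : ℕ} {L E : ℝ} {S : Finset ℕ} {N : ℕ → ℕ} (hw : 0 < w) (hwn : w ≤ n)
    (hS : ∀ r ∈ S, r.Prime ∧ z < r ∧ y < r ∧ r ≤ X)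
    (hN : ∀ r ∈ S, 0 < N r ∧ N r ≤ n ∧ ∀ d, d ∣ N r → r ≡ a [MOD d]) (hinj : Set.InjOn N S)
    (hz : 2 ≤ z) (hX : 2 * X ≤ n) (hY : 2 * Y ≤ n) (h1 : w ^ 4 ≤ y) (h2 : y ≤ Y)
    (hL : Real.log n ≤ L) (hLz : L ≤ 17 * Real.log z) (h4 : 2 * L * z ^ 4 * Y ≤ n)
    (hE : ∑ q ∈ ((Ioc (w ^ 4) y).filter Nat.Prime).filter (¬ · ∣ a),
      |∑ m ∈ Ioc 0 X, Λ m * fq a q m| ≤ E) :
    ∑ r ∈ S, Real.log r * uu w y Y n L (N r) ≤
      35 * n * (MM (w ^ 4) + (MM Y - MM y)) + (Chebyshev.psi X * MM y + L * E) + L ^ 2 * (n / w) := by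
  have hL0 : 0 ≤ L := (Real.log_natCast_nonneg n).trans hL
  have hl : ∀ r ∈ S, Real.log r ≤ L := fun r hr =>
    (log_mono (by have := hS r hr; omega)).trans hL
  have hlz : 0 < Real.log z := Real.log_pos (by exact_mod_cast hz)
  obtain ⟨th, hth⟩ : ∃ th : ℕ → ℝ, ∀ d, th d = ∑ r ∈ S.filter (· ≡ a [MOD d]), Real.log r :=
    ⟨_, fun _ => rfl⟩
  have t0 : ∀ d, 0 ≤ Λ d * th d := fun d => mul_nonneg vonMangoldt_nonneg
    (hth d ▸ sum_nonneg fun r _ => Real.log_natCast_nonneg r)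
  have t1 : ∀ d, d ≤ Y → Λ d * th d ≤ 35 * n * (Λ d / d) := fun d hd => by
    by_cases h : IsPrimePow d
    swap
    · simp [vonMangoldt_eq_zero_iff.2 h]
    have d0 : (0 : ℝ) < d := by exact_mod_cast h.pos
    rw [mul_div_left_comm, mul_div_assoc]
    refine mul_le_mul_of_nonneg_left ?_ vonMangoldt_nonneg
    have a1 := bt a h hz fun r hr => ⟨(hS r hr).1, (hS r hr).2.1, (hS r hr).2.2.2⟩
    have a2 : ((X / d + 1 : ℕ) : ℝ) ≤ n / d := by
      rw [le_div_iff₀ d0]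
      have := Nat.div_mul_le_self X d
      exact_mod_cast (by nlinarith : (X / d + 1) * d ≤ n)
    have a3 : L * (2 * (z : ℝ) ^ 4) ≤ n / d := by
      rw [le_div_iff₀ d0]
      calc _ ≤ L * (2 * (z : ℝ) ^ 4) * Y := by gcongr
        _ ≤ _ := by linarith
    calc _ ≤ #(S.filter (· ≡ a [MOD d])) * L := by
          rw [hth, ← nsmul_eq_mul]
          exact sum_le_card_nsmul _ _ _ fun r hr => hl r (mem_filter.1 hr).1
      _ ≤ (n / d * 2 / Real.log z + 2 * (z : ℝ) ^ 4) * L := by gcongr; exact a1.trans (by gcongr)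
      _ ≤ n / d * 2 / Real.log z * (17 * Real.log z) + n / d := by
          rw [add_mul, mul_comm (2 * _) L]
          gcongr
      _ = _ := by field_simp; ring
  have t2 : ∀ q ∈ (Ioc (w ^ 4) y).filter Nat.Prime, Λ q * th q ≤ Chebyshev.psi X * (Λ q / q) +
      if ¬ q ∣ a then L * |∑ m ∈ Ioc 0 X, Λ m * fq a q m| else 0 := fun q hq => by
    obtain ⟨a1, a2⟩ := mem_filter.1 hq
    have a3 := (mem_Ioc.1 a1).2
    have a4 : 0 ≤ Λ q := vonMangoldt_nonneg
    have a5 := Chebyshev.psi_nonneg X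
    split_ifs with h
    · rw [hth, sum_eq_zero fun r hr => ?_, mul_zero]
      · positivity
      · obtain ⟨b1, -, b2, -⟩ := hS r (mem_filter.1 hr).1
        have := (Nat.prime_dvd_prime_iff_eq a2 b1).1
          (((mem_filter.1 hr).2.dvd_iff dvd_rfl).2 h)
        omega
    have a6 : th q ≤ Chebyshev.psi X / q + ∑ m ∈ Ioc 0 X, Λ m * fq a q m := by
      calc _ = ∑ r ∈ S.filter (· ≡ a [MOD q]), Λ r := by
            rw [hth]
            exact sum_congr rfl fun r hr => (vonMangoldt_apply_prime (hS r (mem_filter.1 hr).1).1).symm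
        _ ≤ ∑ r ∈ (Ioc 0 X).filter (· ≡ a [MOD q]), Λ r :=
            sum_le_sum_of_subset_of_nonneg (filter_subset_filter _ fun r hr =>
              mem_Ioc.2 ⟨(hS r hr).1.pos, (hS r hr).2.2.2⟩) fun _ _ _ => vonMangoldt_nonneg
        _ = _ := by
            simp only [Chebyshev.psi, Nat.floor_natCast, sum_div, ← sum_add_distrib, fq, sum_filter]
            exact sum_congr rfl fun n _ => by split_ifs <;> ring
    have a7 : Λ q ≤ L := vonMangoldt_le_log.trans ((log_mono (by omega)).trans hL)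
    calc _ ≤ Λ q * (Chebyshev.psi X / q + |∑ m ∈ Ioc 0 X, Λ m * fq a q m|) := by
          gcongr
          exact a6.trans (add_le_add_right (le_abs_self _) _)
      _ ≤ _ := by
          rw [mul_add, mul_div_left_comm]
          gcongr
  simp only [uu, mul_add (Real.log _), sum_add_distrib, mul_sum]
  refine add_le_add ?_ ?_
  · rw [sum_comm]
    refine (sum_le_sum (g := fun d => Λ d * th d) fun d _ => ?_).trans
      ((sum_union_le t0).trans (add_le_add ((sum_union_le t0).trans ?_) ?_))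
    · rw [hth, sum_filter, mul_sum]
      refine sum_le_sum fun r hr => ?_
      have := mul_nonneg (vonMangoldt_nonneg (n := d)) (Real.log_natCast_nonneg r)
      by_cases h : d ∣ N r
      · rw [if_pos h, if_pos ((hN r hr).2.2 d h), mul_comm]
      · rw [if_neg h]
        split_ifs <;> simp [this]
    · rw [mul_add, MM, MM, MM, ← sum_Ioc_consecutive _ (Nat.zero_le y) h2, add_sub_cancel_left,
        mul_sum, mul_sum]
      exact add_le_add (sum_le_sum fun d hd => t1 d ((mem_Ioc.1 hd).2.trans (h1.trans h2)))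
        (sum_le_sum fun d hd => t1 d (mem_Ioc.1 hd).2)
    · refine (sum_le_sum t2).trans ?_
      rw [sum_add_distrib, ← sum_filter, ← mul_sum, ← mul_sum, MM]
      have := Chebyshev.psi_nonneg X
      gcongr
      exact (filter_subset _ _).trans (Ioc_subset_Ioc_left (Nat.zero_le _))
  · rw [sum_comm]
    calc _ ≤ ∑ t ∈ Ioc w n, L ^ 2 * n * ((t : ℝ) ^ 2)⁻¹ := sum_le_sum fun t ht => by
          have a1 : #(S.filter fun r => t ^ 2 ∣ N r) ≤ n / t ^ 2 := by
            rw [← Nat.Ioc_filter_dvd_card_eq_div]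
            refine card_le_card_of_injOn N (fun r hr => ?_) (hinj.mono (coe_subset.2 (filter_subset _ _)))
            simp only [coe_filter, Set.mem_ofPred_eq, mem_Ioc] at hr ⊢
            exact ⟨⟨(hN r hr.1).1, (hN r hr.1).2.1⟩, hr.2⟩
          have a2 : (#(S.filter fun r => t ^ 2 ∣ N r) : ℝ) ≤ n / t ^ 2 :=
            (Nat.cast_le.2 a1).trans (Nat.cast_div_le.trans_eq (by push_cast; rfl))
          simp only [mul_ite, mul_zero]
          rw [← sum_filter]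
          refine (sum_le_card_nsmul _ _ (L * L) fun r hr => by
            gcongr; exact hl r (mem_filter.1 hr).1).trans ?_
          rw [nsmul_eq_mul]
          calc _ ≤ n / t ^ 2 * (L * L) := by gcongr
            _ = _ := by ring
      _ ≤ L ^ 2 * n * (w : ℝ)⁻¹ := by
          rw [← mul_sum]
          gcongr
          exact (sum_Ioc_inv_sq_le_sub hw.ne' hwn).trans (sub_le_self _ (by positivity))
      _ = _ := by ring

end Pool.Agent.MP_257582_lc.H99
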