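import Pool.Agent.MP_257582_lc.H99.Top
import Pool.Agent.MP_257582_lc.H99.Dens

/-! Primes `r` such that both `r - 1` and `n - r` have a large prime factor. -/

set_option autoImplicit false

namespace Pool.Agent.MP_257582_lc.H99

open Finset Filter ArithmeticFunction Pool.Agent.MP_e3ece1_pr

lemma ev_log (C k : ℕ) : ∀ᶠ w : ℕ in atTop, C * (Nat.log 2 w + 1) ^ k ≤ w := by
  obtain ⟨N, hN⟩ := eventually_atTop.1 ((tendsto_pow_const_div_const_pow_of_one_lt k
    (r := 2) one_lt_two).eventually_lt_const (show 0 < 1 / (2 * (C : ℝ) + 1) by positivity))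
  refine eventually_atTop.2 ⟨2 ^ N, fun w hw => ?_⟩
  have h0 : w ≠ 0 := by have := Nat.one_le_two_pow (n := N); omega
  have h1 := hN (Nat.log 2 w + 1) ((Nat.le_log_of_pow_le one_lt_two hw).trans (Nat.le_succ _))
  rw [div_lt_div_iff₀ (by positivity) (by positivity), one_mul] at h1
  have h2 : (Nat.log 2 w + 1) ^ k * (2 * C + 1) < 2 ^ (Nat.log 2 w + 1) := by exact_mod_cast h1
  have h3 := Nat.pow_log_le_self 2 h0
  rw [pow_succ] at h2
  nlinarith [Nat.zero_le ((Nat.log 2 w + 1) ^ k)]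

lemma log_le_of_lt {x J : ℕ} (h : x ≤ 2 ^ J) : Real.log x ≤ J := by
  refine (MP_e3ece1_pr.log_mono h).trans ?_
  have := Real.log_two_lt_d9
  simp only [Nat.cast_pow, Real.log_pow, Nat.cast_ofNat]
  nlinarith [(Nat.cast_nonneg J : (0 : ℝ) ≤ J)]

lemma sum_biUnion_le (A : Finset ℕ) (t : ℕ → Finset ℕ) {g : ℕ → ℝ} (hg : ∀ d, 0 ≤ g d) :
    ∑ d ∈ A.biUnion t, g d ≤ ∑ k ∈ A, ∑ d ∈ t k, g d := by
  induction A using Finset.induction_on with
  | empty => simp
  | insert k A hk ih =>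
    rw [biUnion_insert, sum_insert hk]
    exact (sum_union_le hg).trans (add_le_add_right ih _)

lemma psi_le_sum {X Y K n : ℕ} {L : ℝ} (hX : 0 < X) (hL : Real.log n ≤ L) (hK : K < n) :
    Chebyshev.psi X ≤ ∑ r ∈ (Ioc Y X).filter (fun r => r.Prime ∧ ∀ k ∈ Ioc 0 K, ¬ r ∣ n - k),
      Real.log r + 2 * √X * Real.log X + 6 * Y + K * L := by
  have h0 : ∀ d, 0 ≤ Λ d := fun _ => vonMangoldt_nonneg
  have h1 := Chebyshev.psi_sub_theta_le (x := X) (by exact_mod_cast hX)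
  have h2 := Chebyshev.psi_le_const_mul_self (Nat.cast_nonneg Y)
  have h4 : Real.log 4 ≤ 2 := by
    rw [show (4 : ℝ) = 2 ^ 2 by norm_num, Real.log_pow]
    have := Real.log_two_lt_d9
    push_cast
    linarith
  rw [Chebyshev.psi_sub_theta_eq_sum_not_prime, Nat.floor_natCast] at h1
  rw [Chebyshev.psi, Nat.floor_natCast] at h2 ⊢
  refine (sum_le_sum_of_subset_of_nonneg (t := (Ioc Y X).filter (fun r => r.Prime ∧
    ∀ k ∈ Ioc 0 K, ¬ r ∣ n - k) ∪ (Ioc 0 X).filter (¬ ·.Prime) ∪ Ioc 0 Y ∪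
      (Ioc 0 K).biUnion fun k => (n - k).divisors) (fun r hr => ?_) fun _ _ _ => h0 _).trans
    ((sum_union_le h0).trans (add_le_add ((sum_union_le h0).trans (add_le_add
      ((sum_union_le h0).trans (add_le_add (le_of_eq ?_) h1)) (h2.trans ?_)))
      ((sum_biUnion_le _ _ h0).trans ?_)))
  · by_contra h
    simp only [mem_union, mem_filter, mem_Ioc, mem_biUnion, Nat.mem_divisors, not_or, not_and,
      not_not, not_exists] at hr h
    exact h.1.1.1 ⟨by omega, hr.2⟩ (h.1.1.2 hr) fun k hk h' => by have := h.2 k hk h'; omega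
  · exact sum_congr rfl fun r hr => vonMangoldt_apply_prime (mem_filter.1 hr).2.1
  · gcongr
    linarith
  · simp only [vonMangoldt_sum]
    simpa using sum_le_card_nsmul (Ioc 0 K) (fun k => Real.log (n - k : ℕ)) L fun k _ =>
      (log_mono (Nat.sub_le _ _)).trans hL

lemma point {h s w n r : ℕ} {l L B : ℝ} (hw : 0 < w) (hlp : ∀ i : ℕ, Real.log (w ^ i : ℕ) = i * l)
    (hB : B = (16 * s + 5 : ℕ)) (B1 : 0 ≤ B - h) (l0 : 0 < l) (hL1 : Real.log n ≤ L)
    (n2 : n ≤ w ^ (16 * s + 7)) (b1 : w ^ (16 * s + 5) < r) (b2 : 2 * r ≤ n) (b3 : r.Prime)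
    (b4 : ∀ k ∈ Ioc 0 (w ^ 2), ¬ r ∣ n - k) (hc : ∀ k p q : ℕ, p.Prime → q.Prime → n = k * p + r →
      q ∣ r - 1 → w ^ (8 * s + 7) < p → w ^ (8 * s + 7) < q → ¬ r.Coprime (k * (p - 1)))
    {c : Prop} [Decidable c]
    (hT : (∃ k ∈ Ioc 0 (w ^ h), ∃ q, q.Prime ∧ w ^ s < q ∧ r = 1 + k * q) → c) :
    B ^ 2 * l ≤ B * uu w (w ^ (8 * s)) (w ^ (8 * s + 7)) n L (r - 1) +
      (B - h) * uu w (w ^ (8 * s)) (w ^ (8 * s + 7)) n L (n - r) + if c then B * h * l else 0 := by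
  have hpw : ∀ {i j}, i ≤ j → w ^ i ≤ w ^ j := fun h => Nat.pow_le_pow_right hw h
  have B0 : 0 ≤ B := hB ▸ Nat.cast_nonneg _
  have := b3.two_le
  have u1 := fun k => log_le_uu (y := w ^ (8 * s)) (Y := w ^ (8 * s + 7)) (k := k) hw hL1
    (show 0 < r - 1 by omega) (by omega)
  have u2 := fun k => log_le_uu (y := w ^ (8 * s)) (Y := w ^ (8 * s + 7)) (k := k) hw hL1
    (show 0 < n - r by omega) (by omega)
  have u3 := u1 1 (one_dvd _) fun q hq h => absurd h hq.not_dvd_one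
  have u4 := u2 1 (one_dvd _) fun q hq h => absurd h hq.not_dvd_one
  have u5 : ∀ N, w ^ (16 * s + 5) ≤ N → B * l ≤ Real.log N := fun N h => hB ▸ hlp _ ▸ log_mono h
  have u6 : 0 ≤ if c then B * h * l else 0 := by split_ifs <;> positivity
  rw [Nat.cast_one, Real.log_one] at u3 u4
  by_cases h3 : ∀ q, q.Prime → q ∣ r - 1 → q ≤ w ^ (8 * s + 7)
  · linarith [mul_le_mul_of_nonneg_left ((u5 _ (by omega)).trans (u1 _ dvd_rfl h3)) B0,
      mul_nonneg B1 u4]
  push Not at h3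
  obtain ⟨q, q1, q2, q3⟩ := h3
  have h4 := mul_le_mul_of_nonneg_left ((u5 _ (by omega)).trans (u2 _ dvd_rfl fun p p1 p2 => by
    by_contra p3
    obtain ⟨k, hk⟩ := p2
    have k0 : 0 < k := Nat.pos_of_ne_zero (by rintro rfl; omega)
    refine hc k p q p1 q1 (by rw [mul_comm]; omega) q2 (not_le.1 p3) q3
      (b3.coprime_iff_not_dvd.2 fun h => (b3.dvd_mul.1 h).elim (fun h => ?_) fun h => ?_)
    · have c1 := hpw (show 16 * s + 7 ≤ 8 * s + 7 + (16 * s + 5) by omega)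
      have := Nat.mul_lt_mul'' (not_le.1 p3) (b1.trans_le (Nat.le_of_dvd k0 h))
      rw [← pow_add] at this
      omega
    · have c1 := p1.two_le
      have c2 := Nat.le_of_dvd (by omega) h
      obtain ⟨j, hj⟩ := h
      refine b4 k (mem_Ioc.2 ⟨k0, not_lt.1 fun c3 => ?_⟩) ⟨1 + j * k, ?_⟩
      · have := Nat.mul_lt_mul'' (show w ^ (16 * s + 5) < p by omega) c3
        have c4 := hpw (show 16 * s + 7 ≤ 16 * s + 5 + 2 by omega)
        rw [← pow_add] at this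
        omega
      · rw [show p = r * j + 1 by omega, add_mul, mul_assoc] at hk
        rw [mul_add]
        omega)) B1
  obtain ⟨k, hk⟩ := q2
  by_cases h5 : k ≤ w ^ h
  · rw [if_pos (hT ⟨k, mem_Ioc.2 ⟨Nat.pos_of_ne_zero (by rintro rfl; omega), h5⟩,
      q, q1, (hpw (by omega)).trans_lt q3, by rw [mul_comm]; omega⟩)]
    linarith [mul_nonneg B0 u3]
  · have h6 := ((hlp h).symm.trans_le (log_mono (not_le.1 h5).le)).trans
      (u1 k ⟨q, by rw [hk, mul_comm]⟩ fun p _ p2 => (Nat.le_of_dvd (by omega) p2).trans (by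
        have c1 := hpw (show 16 * s + 7 ≤ 8 * s + 7 + (8 * s + 7) by omega)
        by_contra h7
        have := Nat.mul_lt_mul'' q3 (not_le.1 h7)
        rw [← pow_add] at this
        omega))
    linarith [mul_le_mul_of_nonneg_left h6 B0]

lemma num {B h s l n ψ t J F U₁ U₂ W : ℝ} (hB : B = 16 * s + 5) (s1 : 10200 ≤ h) (s2 : h ≤ s)
    (l0 : 0 < l) (n0 : 0 < n) (hJ : 16 * s + 7 ≤ J) (hF : 0 ≤ F) (k10 : 10000 * (J ^ 2 * F) ≤ n)
    (k11 : n / 3 ≤ ψ) (k12 : ψ ≤ t + 9 * (J * F)) (h1 : U₁ ≤ l * (421 * n + (8 * s + 1) * ψ))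
    (h2 : U₂ ≤ l * (421 * n + (8 * s + 1) * ψ)) (hW : W ≤ n / 12)
    (k1 : B ^ 2 * (t * l) ≤ B * U₁ + (B - h) * U₂ + B * h * (W * l)) : False := by
  have B0 : 0 < B := by linarith
  have B1 : 0 ≤ B - h := by linarith
  have h0 : 0 < h := by linarith
  have J0 : 0 < J := by linarith
  have k13 : B * (ψ - t) ≤ n := by
    calc _ ≤ B * (9 * (J * F)) := by gcongr; linarith
      _ ≤ J * (9 * (J * F)) := by gcongr; linarith
      _ ≤ _ := by linarith [show 0 ≤ J ^ 2 * F by positivity]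
  have k14 : l * (B * (B * t)) ≤ l * ((2 * B - h) * (421 * n + (8 * s + 1) * ψ) + B * h * (n / 12)) := by
    linarith [mul_le_mul_of_nonneg_left h1 B0.le, mul_le_mul_of_nonneg_left h2 B1,
      mul_le_mul_of_nonneg_right hW (show 0 ≤ B * h * l by positivity)]
  have k15 := le_of_mul_le_mul_left k14 l0
  have k16 : (2 * B - h) * ((8 * s + 1) * ψ) ≤ (2 * B - h) * (B / 2 * ψ) := by
    gcongr <;> linarith
  have k17 : B * (h * (n / 6)) ≤ B * (843 * n + h * (n / 12)) := by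
    linarith [mul_le_mul_of_nonneg_left k13 B0.le, mul_le_mul_of_nonneg_left k11
      (show 0 ≤ B * h by positivity), mul_pos h0 n0]
  linarith [le_of_mul_le_mul_left k17 B0, mul_le_mul_of_nonneg_right s1 n0.le]

lemma both {h s : ℕ} (hh : 10200 ≤ h) (hs : 139264 * h ≤ s) : ∀ᶠ w : ℕ in atTop, ∀ n : ℕ,
    w ^ (16 * s + 6) ≤ n → n ≤ w ^ (16 * s + 7) → ∃ r k p q : ℕ, r.Prime ∧ p.Prime ∧ q.Prime ∧
      n = k * p + r ∧ q ∣ r - 1 ∧ w ^ (8 * s + 7) < p ∧ w ^ (8 * s + 7) < q ∧ w ^ (16 * s + 5) < r ∧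
      2 * r ≤ n ∧ r.Coprime (k * (p - 1)) := by
  classical
  filter_upwards [ev_log (10000 * (16 * s + 7) ^ 5) 5, eventually_ge_atTop (2 ^ 26)] with w h1 h2 n n1 n2
  by_contra hc
  obtain ⟨J, hJ⟩ : ∃ J, J = (16 * s + 7) * (Nat.log 2 w + 1) := ⟨_, rfl⟩
  rw [mul_assoc, ← mul_pow, ← hJ] at h1
  have hw : 0 < w := by omega
  have hpw : ∀ {i j}, i ≤ j → w ^ i ≤ w ^ j := fun h => Nat.pow_le_pow_right hw h
  have hw2 : ∀ i, 2 * w ^ i ≤ w ^ (i + 1) := fun i => by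
    rw [pow_succ']; exact Nat.mul_le_mul_right _ (by omega)
  have hlt : ∀ i, 0 < i → w ^ i < 2 ^ (i * (Nat.log 2 w + 1)) := fun i hi => by
    rw [mul_comm, pow_mul]
    exact Nat.pow_lt_pow_left (Nat.lt_pow_succ_log_self one_lt_two w) hi.ne'
  have hnJ : n < 2 ^ J := hJ ▸ n2.trans_lt (hlt _ (by omega))
  have hwn : w ^ 2 < n := by
    have := hw2 2
    have := hpw (show 2 + 1 ≤ 16 * s + 6 by omega)
    have := pow_pos hw 2
    omega
  have hwn' : w ≤ n := (Nat.le_self_pow two_ne_zero w).trans hwn.le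
  obtain ⟨l, hl⟩ : ∃ l, l = Real.log w := ⟨_, rfl⟩
  have hlp : ∀ i : ℕ, Real.log (w ^ i : ℕ) = i * l := fun i => by rw [hl, Nat.cast_pow, Real.log_pow]
  have l2 := Real.log_two_gt_d9
  have hl1 : 13 ≤ l := by
    have := log_mono h2
    simp only [Nat.cast_pow, Real.log_pow, ← hl] at this
    push_cast at this
    linarith
  have hl2 : ((Nat.log 2 w + 1 : ℕ) : ℝ) ≤ 2 * l := by
    have := log_mono (Nat.pow_log_le_self 2 hw.ne')
    simp only [Nat.cast_pow, Real.log_pow, ← hl] at this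
    push_cast at this ⊢
    linarith [mul_le_mul_of_nonneg_left l2.le (Nat.cast_nonneg (Nat.log 2 w))]
  obtain ⟨L, hL⟩ : ∃ L : ℝ, L = (16 * s + 7 : ℕ) * l := ⟨_, rfl⟩
  have hL1 : Real.log n ≤ L := hL ▸ hlp _ ▸ log_mono n2
  have hL2 : L ≤ J := by
    rw [hL, hJ, Nat.cast_mul, hl]
    exact mul_le_mul_of_nonneg_left (log_le_of_lt (Nat.lt_pow_succ_log_self one_lt_two w).le)
      (by positivity)
  have s1 : (10200 : ℝ) ≤ h := by exact_mod_cast hh
  have s2 : 139264 * (h : ℝ) ≤ s := by exact_mod_cast hs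
  have hL3 : L ≤ 17 * (s * l) := by
    rw [hL]
    push_cast
    linarith [mul_le_mul_of_nonneg_right (show (7 : ℝ) ≤ s by linarith) (show 0 ≤ l by linarith)]
  have hJ1 : (16 * s + 7 : ℝ) ≤ J := by exact_mod_cast hJ ▸ Nat.le_mul_of_pos_right _ (Nat.succ_pos _)
  have hJ2 : (1 : ℝ) ≤ J := by linarith
  have hL0 : 0 < L := by rw [hL]; positivity
  have w0 : (0 : ℝ) < w := by exact_mod_cast hw
  obtain ⟨F, hF⟩ : ∃ F : ℝ, F = n / w := ⟨_, rfl⟩
  have hF0 : 0 ≤ F := by rw [hF]; positivity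
  have hF1 : ∀ i, i ≤ 16 * s + 5 → (w : ℝ) ^ i ≤ F := fun i hi => by
    rw [hF, le_div_iff₀ w0, ← pow_succ]
    exact_mod_cast (hpw (by omega)).trans n1
  have hF2 : ∀ i, i ≤ 5 → 10000 * (J ^ i * F) ≤ n := fun i hi => by
    have a1 : 10000 * (J : ℝ) ^ 5 ≤ w := by exact_mod_cast h1
    have a2 := pow_le_pow_right₀ hJ2 hi
    calc _ = 10000 * J ^ i * F := by ring
      _ ≤ w * F := by gcongr; linarith
      _ = _ := by rw [hF]; field_simp
  have hz : 2 ≤ w ^ s := le_trans (by omega) (Nat.le_self_pow (by omega) w)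
  obtain ⟨X, hX⟩ : ∃ X, X = n / 2 := ⟨_, rfl⟩
  have hlX : Real.log X ≤ L := (log_mono (by omega)).trans hL1
  have hXZ : X ≤ (w ^ (8 * s + 4)) ^ 2 := by
    have := hpw (show 16 * s + 7 ≤ (8 * s + 4) * 2 by omega)
    rw [← pow_mul]
    omega
  have hT := psi_le_sum (X := X) (Y := w ^ (16 * s + 5)) (by omega) hL1 hwn
  obtain ⟨S, hS⟩ : ∃ S, S = (Ioc (w ^ (16 * s + 5)) X).filter
    (fun r => r.Prime ∧ ∀ k ∈ Ioc 0 (w ^ 2), ¬ r ∣ n - k) := ⟨_, rfl⟩
  rw [← hS] at hT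
  have hS1 : ∀ r ∈ S, (w ^ (16 * s + 5) < r ∧ r ≤ X) ∧ r.Prime ∧ ∀ k ∈ Ioc 0 (w ^ 2), ¬ r ∣ n - k :=
    fun r hr => by simpa only [hS, mem_filter, ← mem_Ioc] using hr
  have hU : ∀ (a : ℕ) (N : ℕ → ℕ), (∀ r ∈ S, 0 < N r ∧ N r ≤ n ∧ ∀ d, d ∣ N r → r ≡ a [MOD d]) →
      Set.InjOn N S → ∑ r ∈ S, Real.log r * uu w (w ^ (8 * s)) (w ^ (8 * s + 7)) n L (N r) ≤
        l * (421 * n + (8 * s + 1) * Chebyshev.psi X) := fun a N hN hinj => by
    have a1 := bv_range (s := a) (y := w ^ (8 * s)) (F := F) hw hXZ (by omega : X + 1 < 2 ^ J) hL0 hlX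
      (by push_cast; rw [← pow_add]; exact hF1 _ (by omega))
      (by rw [hF]; gcongr; omega) (by push_cast; rw [← pow_add]; exact hF1 _ (by omega)) J
      (((Ioc (w ^ 4) (w ^ (8 * s))).filter Nat.Prime).filter (¬ · ∣ a)) fun q hq => by
        simp only [mem_filter, mem_Ioc] at hq
        have b1 := hpw (show 8 * s ≤ 16 * s + 6 by omega)
        have b2 : 2 ^ J ≤ 4 ^ J := Nat.pow_le_pow_left (by norm_num) _
        have b3 := Nat.le_mul_of_pos_right (4 ^ J) (pow_pos hw 4)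
        exact ⟨hq.1.2, hq.2, hq.1.1.1, by omega, hq.1.1.2⟩
    have a2 := small hw hwn' (fun r hr => by
        obtain ⟨⟨b1, b2⟩, b3, -⟩ := hS1 r hr
        exact ⟨b3, (hpw (by omega)).trans_lt b1, (hpw (by omega)).trans_lt b1, b2⟩) hN hinj hz
      (by omega) ((hw2 (8 * s + 7)).trans ((hpw (by omega)).trans n1)) (hpw (by omega))
      (hpw (by omega)) hL1 (by rwa [hlp]) (by
        have b1 := hF1 (s * 4 + (8 * s + 7)) (by omega)
        have b2 := hF2 1 (by norm_num)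
        push_cast
        rw [← pow_mul, mul_assoc, ← pow_add]
        linarith [mul_le_mul hL2 b1 (by positivity) (by positivity),
          mul_nonneg (Nat.cast_nonneg J) hF0]) a1
    have b1 := (mertens (pow_pos hw 4)).2
    have b2 := (mertens (pow_pos hw (8 * s + 7))).2
    obtain ⟨b3, b4⟩ := mertens (pow_pos hw (8 * s))
    rw [hlp] at b1 b2 b3 b4
    push_cast at b1 b2 b3 b4
    have b5 := hF2 5 le_rfl
    have b6 := hF2 2 (by norm_num)
    have b7 : L * (J * (L * F * (15 + 2040 * J ^ 2))) ≤ 2055 * (J ^ 5 * F) := by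
      calc _ ≤ J * (J * (J * F * (15 * J ^ 2 + 2040 * J ^ 2))) := by
            gcongr
            linarith [one_le_pow₀ hJ2 (n := 2)]
        _ = _ := by ring
    have b8 : L ^ 2 * F ≤ J ^ 2 * F := by gcongr
    have b9 := Chebyshev.psi_nonneg X
    have c1 : 35 * n * (MM (w ^ 4) + (MM (w ^ (8 * s + 7)) - MM (w ^ (8 * s)))) ≤
      35 * n * (12 * l) := by gcongr; linarith
    have c2 : Chebyshev.psi X * MM (w ^ (8 * s)) ≤ Chebyshev.psi X * ((8 * s + 1) * l) := by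
      gcongr; linarith
    have c3 : (n : ℝ) * 1 ≤ n * l := by gcongr; linarith
    rw [← hF] at a2
    linarith [(Nat.cast_nonneg n : (0 : ℝ) ≤ n)]
  have hU1 := hU 1 (· - 1) (fun r hr => by
      obtain ⟨⟨b1, b2⟩, b3, -⟩ := hS1 r hr
      have := b3.two_le
      exact ⟨by omega, by omega, fun d hd => ((Nat.modEq_iff_dvd' b3.pos).2 hd).symm⟩)
    fun r hr r' hr' e => by
      have := (hS1 r hr).2.1.pos
      have := (hS1 r' hr').2.1.pos
      simp only at e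
      omega
  have hU2 := hU n (n - ·) (fun r hr => by
      obtain ⟨⟨b1, b2⟩, b3, -⟩ := hS1 r hr
      exact ⟨by omega, by omega, fun d hd => (Nat.modEq_iff_dvd' (by omega)).2 hd⟩)
    fun r hr r' hr' e => by
      have := (hS1 r hr).1.2
      have := (hS1 r' hr').1.2
      simp only at e
      omega
  obtain ⟨T, hT1⟩ : ∃ T, T = S.filter fun r => ∃ k ∈ Ioc 0 (w ^ h), ∃ q, q.Prime ∧ w ^ s < q ∧
    r = 1 + k * q := ⟨_, rfl⟩
  have hW : ∑ r ∈ T, Real.log r ≤ n / 12 := by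
    have a1 := pairs (n := n) (S := T) hz (hlt h (by omega)) ((hpw (by omega)).trans n1) fun r hr => by
      obtain ⟨b1, b2⟩ := mem_filter.1 (hT1 ▸ hr)
      exact ⟨(hS1 r b1).2.1, by have := (hS1 r b1).1.2; omega, b2⟩
    have a2 := hF1 (h + s * 8) (by omega)
    have a3 := hF2 1 (by norm_num)
    rw [hlp, Nat.cast_mul] at a1
    calc _ ≤ #T * L := by
          rw [← nsmul_eq_mul]
          refine sum_le_card_nsmul _ _ _ fun r hr => (log_mono ?_).trans hlX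
          exact (hS1 r (mem_filter.1 (hT1 ▸ hr)).1).1.2
      _ ≤ (256 * (h * (2 * l)) * n / (s * l) ^ 2 + 2 * F) * L := by
          refine mul_le_mul_of_nonneg_right (a1.trans (add_le_add (by gcongr) ?_)) hL0.le
          push_cast
          rw [← pow_mul, mul_left_comm, ← pow_add]
          gcongr
      _ ≤ 256 * (h * (2 * l)) * n / (s * l) ^ 2 * (17 * (s * l)) + 2 * F * J := by
          rw [add_mul]
          gcongr
      _ = 8704 * h / s * n + 2 * (J ^ 1 * F) := by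
          have : (s : ℝ) ≠ 0 := by linarith
          have : l ≠ 0 := by linarith
          field_simp
          ring
      _ ≤ 1 / 16 * n + 2 * (J ^ 1 * F) := by
          refine add_le_add_left (mul_le_mul_of_nonneg_right ?_ (by positivity)) _
          rw [div_le_iff₀ (by linarith)]
          linarith
      _ ≤ _ := by linarith [(Nat.cast_nonneg n : (0 : ℝ) ≤ n)]
  obtain ⟨B, hB⟩ : ∃ B : ℝ, B = (16 * s + 5 : ℕ) := ⟨_, rfl⟩
  have hB1 : B = 16 * s + 5 := by rw [hB]; push_cast; rfl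
  have l0 : 0 < l := by linarith
  have k1 := sum_le_sum fun r hr => mul_le_mul_of_nonneg_left (point (c := r ∈ T) hw hlp hB
    (by linarith) l0 hL1 n2 (hS1 r hr).1.1 (by have := (hS1 r hr).1.2; omega) (hS1 r hr).2.1
    (hS1 r hr).2.2 (fun k p q c1 c2 c3 c4 c5 c6 c7 => hc ⟨r, k, p, q, (hS1 r hr).2.1, c1, c2, c3, c4,
      c5, c6, (hS1 r hr).1.1, by have := (hS1 r hr).1.2; omega, c7⟩)
    fun h => hT1 ▸ mem_filter.2 ⟨hr, h⟩) (Real.log_natCast_nonneg r)
  simp only [mul_add (Real.log _), sum_add_distrib, mul_left_comm (Real.log _), ← mul_sum,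
    ← sum_mul, mul_ite, mul_zero, ← sum_filter, filter_mem_eq_inter] at k1
  rw [inter_eq_right.2 (hT1 ▸ filter_subset _ _)] at k1
  have k2 := Chebyshev.psi_ge X
  have k3 : (n : ℝ) ≤ 2 * X + 1 := by exact_mod_cast (by omega)
  have k4 := log_le_of_lt (show X + 1 ≤ 2 ^ J by omega)
  have k5 : √X ≤ F := Real.sqrt_le_iff.2 ⟨hF0, le_trans (by exact_mod_cast hXZ)
    (pow_le_pow_left₀ (by positivity) (hF1 (8 * s + 4) (by omega)) 2)⟩
  have k6 := hF1 _ le_rfl
  have k7 := hF1 2 (by omega)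
  have k8 := hF1 0 (by omega)
  have k9 := hF2 1 (by norm_num)
  have k11 : (n : ℝ) / 3 ≤ Chebyshev.psi X := by
    push_cast at k4
    rw [pow_zero] at k8
    linarith [mul_le_mul_of_nonneg_left l2.le (Nat.cast_nonneg X),
      mul_le_mul_of_nonneg_left k8 (Nat.cast_nonneg J)]
  have k12 : Chebyshev.psi X ≤ ∑ r ∈ S, Real.log r + 9 * (J * F) := by
    have c1 : 2 * √X * Real.log X ≤ 2 * F * J := by
      have := Real.log_natCast_nonneg X
      gcongr
      linarith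
    have c2 : (w : ℝ) ^ 2 * L ≤ F * J := by gcongr
    push_cast at hT
    linarith [mul_le_mul_of_nonneg_right hJ2 hF0]
  exact num hB1 s1 (by linarith) l0 (by exact_mod_cast (by omega)) hJ1 hF0 (hF2 2 (by norm_num)) k11 k12
    hU1 hU2 hW k1

theorem sparse : ∃ δ : ℝ, 0 < δ ∧ ∃ N : ℕ, ∀ n ≥ N, ∀ f : SimpleGraph (Fin n) → Prop,
    Setup n (n.choose 2 - 1) f →
      ¬ ∀ G, f G → (G.edgeSet.ncard : ℝ) ≤ (n : ℝ) ^ ((3 : ℝ) / 2 + δ) := by
  obtain ⟨s, hs⟩ : ∃ s, 139264 * 10200 ≤ s := ⟨_, le_rfl⟩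
  obtain ⟨W, hW⟩ := eventually_atTop.1 ((both le_rfl hs).and
    (eventually_ge_atTop (2 ^ (16 * s + 6))))
  refine ⟨1 / 2 / (16 * s + 7 : ℕ), by positivity, W ^ (16 * s + 6) + 2, fun n hn f hf h => ?_⟩
  have a1 := Nat.lt_pow_nthRoot_add_one (n := 16 * s + 6) (by omega) n
  have a2 := (Nat.pow_nthRoot_le_iff (n := 16 * s + 6) (a := n)).2 (Or.inl (by omega))
  generalize Nat.nthRoot (16 * s + 6) n = w at a1 a2
  obtain ⟨a3, a4⟩ := hW w (Nat.lt_succ_iff.1 (lt_of_pow_lt_pow_left₀ (16 * s + 6) (Nat.zero_le _)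
    (lt_of_le_of_lt (by omega) a1)))
  have a6 : 2 ^ 1 ≤ 2 ^ (16 * s + 6) := Nat.pow_le_pow_right two_pos (by omega)
  have a5 : n ≤ w ^ (16 * s + 7) := by
    calc _ ≤ (2 * w) ^ (16 * s + 6) := a1.le.trans (Nat.pow_le_pow_left (by omega) _)
      _ ≤ w * w ^ (16 * s + 6) := by rw [mul_pow]; gcongr
      _ = _ := by ring
  obtain ⟨r, k, p, q, c1, c2, c3, c4, c5, c6, c7, c8, c9, c10⟩ := a3 n a2 a5
  have a7 : 2 * w ^ (24 * s + 11) ≤ w ^ (16 * s + 5) * w ^ (8 * s + 7) := by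
    calc _ ≤ w * w ^ (24 * s + 11) := by gcongr; omega
      _ = _ := by ring
  have a8 : 0 < w ^ (8 * s + 7) := pow_pos (by omega) _
  refine topo (R := {r}) (m := w ^ (24 * s + 11)) hf (Nat.sub_lt (Nat.choose_pos (by omega)) one_pos)
    (fun G hG => ?_) c2 c3 c6.le c7.le (by rwa [sum_singleton])
    (a7.trans_lt (Nat.mul_lt_mul_of_lt_of_le (by omega) (by omega) (by omega))) fun r' hr => by
      rw [mem_singleton.1 hr]
      exact ⟨c1, c5, c10, a7.trans_lt (Nat.mul_lt_mul_of_pos_right c8 a8)⟩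
  have hA : (0 : ℝ) < (16 * s + 7 : ℕ) := by positivity
  refine Nat.cast_le (α := ℝ).1 ((h G hG).trans ?_)
  calc _ ≤ ((w : ℝ) ^ (16 * s + 7)) ^ ((3 : ℝ) / 2 + 1 / 2 / (16 * s + 7 : ℕ)) :=
        Real.rpow_le_rpow (by positivity) (by exact_mod_cast a5) (by positivity)
    _ = _ := by
        rw [← Real.rpow_natCast, ← Real.rpow_mul (by positivity), mul_add, mul_div_cancel₀ _ hA.ne',
          Nat.cast_pow, ← Real.rpow_natCast]
        congr 1
        push_cast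
        ring

end Pool.Agent.MP_257582_lc.H99
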