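import Pool.Agent.MP_e3ece1_pr.Vaughan

/-! The large sieve and a Bombieri-Vinogradov estimate for prime moduli. -/

set_option autoImplicit false

namespace Pool.Agent.MP_257582_lc.H99

open Finset

lemma parseval {ι : Type*} (s : Finset ι) {M : ℕ} {ω : ℂ} (hω : IsPrimitiveRoot ω M) (hM : 0 < M)
    (e : ι → ℕ) (he : ∀ i ∈ s, e i < M) (hinj : Set.InjOn e s) (b : ι → ℂ) :
    ∑ x ∈ range M, ‖∑ i ∈ s, b i * ω ^ (e i * x)‖ ^ 2 = M * ∑ i ∈ s, ‖b i‖ ^ 2 := by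
  classical
  have h0 : ω ≠ 0 := hω.ne_zero hM.ne'
  have hc : (starRingEnd ℂ) ω = ω⁻¹ := (Complex.inv_eq_conj (hω.norm'_eq_one hM.ne')).symm
  have key : ∀ i ∈ s, ∀ j ∈ s, ∑ x ∈ range M, (ω ^ e i / ω ^ e j) ^ x = if i = j then (M : ℂ) else 0 := by
    intro i hi j hj
    split_ifs with h
    · simp [h, h0]
    · rw [geom_sum_eq, div_pow, ← pow_mul, ← pow_mul, mul_comm (e i), mul_comm (e j), pow_mul,
        pow_mul, hω.pow_eq_one]
      · simp
      · intro h1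
        rw [div_eq_one_iff_eq (pow_ne_zero _ h0)] at h1
        exact h (hinj hi hj (hω.pow_inj (he i hi) (he j hj) h1))
  have : ((∑ x ∈ range M, ‖∑ i ∈ s, b i * ω ^ (e i * x)‖ ^ 2 : ℝ) : ℂ) =
      ∑ i ∈ s, ∑ j ∈ s, b i * (starRingEnd ℂ) (b j) * ∑ x ∈ range M, (ω ^ e i / ω ^ e j) ^ x := by
    push_cast
    simp only [← Complex.mul_conj', map_sum, map_mul, map_pow, hc, sum_mul_sum]
    simp only [mul_sum]
    rw [sum_comm]
    refine sum_congr rfl fun i _ => ?_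
    rw [sum_comm]
    refine sum_congr rfl fun j _ => sum_congr rfl fun x _ => ?_
    rw [div_pow, pow_mul, pow_mul, inv_pow, inv_pow]
    ring
  refine Complex.ofReal_injective (this.trans ?_)
  rw [sum_congr rfl fun i hi => sum_congr rfl fun j hj => by rw [key i hi j hj]]
  push_cast
  simp only [mul_ite, mul_zero, sum_ite_eq, ← Complex.mul_conj', mul_sum]
  exact sum_congr rfl fun i hi => by rw [if_pos hi, mul_comm]

lemma window (g : ℕ → ℝ) (y D : ℕ) :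
    D * g y ≤ ∑ u ∈ Ico y (y + D), (g u + D * |g (u + 1) - g u|) := by
  rw [sum_add_distrib, ← mul_sum]
  have : ∀ u ∈ Ico y (y + D), g y - ∑ v ∈ Ico y (y + D), |g (v + 1) - g v| ≤ g u := fun u hu => by
    rw [mem_Ico] at hu
    have h1 := sum_Ico_sub g hu.1
    have h2 : -∑ v ∈ Ico y u, (g (v + 1) - g v) ≤ ∑ v ∈ Ico y (y + D), |g (v + 1) - g v| :=
      (neg_le_abs _).trans ((abs_sum_le_sum_abs _ _).trans (sum_le_sum_of_subset_of_nonneg
        (Ico_subset_Ico_right hu.2.le) fun _ _ _ => abs_nonneg _))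
    linarith
  have h := card_nsmul_le_sum _ _ _ this
  rw [Nat.card_Ico, Nat.add_sub_cancel_left, nsmul_eq_mul] at h
  linarith

lemma spaced {ι : Type*} (Y : Finset ι) (y : ι → ℕ) (D M : ℕ)
    (hs : ∀ i ∈ Y, ∀ j ∈ Y, i ≠ j → y i + D ≤ y j ∨ y j + D ≤ y i) (hle : ∀ i ∈ Y, y i + D ≤ M)
    (h : ℕ → ℝ) (h0 : ∀ u, 0 ≤ h u) :
    ∑ i ∈ Y, ∑ u ∈ Ico (y i) (y i + D), h u ≤ ∑ u ∈ range M, h u := by
  rw [← sum_biUnion]
  · refine sum_le_sum_of_subset_of_nonneg (fun u hu => ?_) fun _ _ _ => h0 _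
    obtain ⟨i, hi, hu⟩ := mem_biUnion.1 hu
    have := hle i hi
    simp only [mem_Ico, mem_range] at hu ⊢
    omega
  · intro i hi j hj hij
    refine disjoint_left.2 fun u h1 h2 => ?_
    have := hs i hi j hj hij
    simp only [mem_Ico] at h1 h2
    omega

/-- the standard root of unity -/
noncomputable def ee (q : ℕ) : ℂ := Complex.exp (2 * Real.pi * Complex.I / q)

/-- the energy at the non-trivial fractions with denominator `q` -/
noncomputable def En (q N : ℕ) (a : ℕ → ℝ) : ℝ :=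
  ∑ t ∈ Ico 1 q, ‖∑ n ∈ range N, (a n : ℂ) * ee q ^ (n * t)‖ ^ 2

lemma gallagher {ι : Type*} (Y : Finset ι) (y : ι → ℕ) {D M N : ℕ} (hM : 0 < M) (hN : N ≤ M)
    (hs : ∀ i ∈ Y, ∀ j ∈ Y, i ≠ j → y i + D ≤ y j ∨ y j + D ≤ y i) (hle : ∀ i ∈ Y, y i + D ≤ M)
    (a : ℕ → ℝ) : D * ∑ i ∈ Y, ‖∑ n ∈ range N, (a n : ℂ) * ee M ^ (n * y i)‖ ^ 2 ≤
      (M + 41 * D * N) * ∑ n ∈ range N, a n ^ 2 := by
  rcases Nat.eq_zero_or_pos N with rfl | hN0
  · simp
  have hω : IsPrimitiveRoot (ee M) M := Complex.isPrimitiveRoot_exp M hM.ne'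
  have hM' : (0 : ℝ) < M := by exact_mod_cast hM
  have hN' : (0 : ℝ) < N := by exact_mod_cast hN0
  set S : ℕ → ℂ := fun x => ∑ n ∈ range N, (a n : ℂ) * ee M ^ (n * x) with hS
  set A := ∑ n ∈ range N, a n ^ 2 with hA
  have hA0 : 0 ≤ A := by positivity
  have P := parseval (range N) hω hM id (fun n hn => (mem_range.1 hn).trans_le hN) fun _ _ _ _ h => h
  simp only [id] at P
  have p0 : ∑ x ∈ range M, ‖S x‖ ^ 2 = M * A := by simpa using P fun n => a n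
  have p1 : ∑ x ∈ range M, ‖S (x + 1)‖ ^ 2 = M * A := by
    have := P fun n => a n * ee M ^ n
    simp only [norm_mul, norm_pow, hω.norm'_eq_one hM.ne', one_pow, mul_one, Complex.norm_real,
      Real.norm_eq_abs, sq_abs] at this
    rw [← this]
    simp only [hS, mul_add, mul_one, pow_add, mul_assoc, mul_comm (ee M ^ (_ * _))]
  have p2 : ∑ x ∈ range M, ‖S (x + 1) - S x‖ ^ 2 ≤ M * ((2 * Real.pi * N / M) ^ 2 * A) := by
    have := P fun n => a n * (ee M ^ n - 1)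
    refine (le_of_eq (Eq.trans ?_ this)).trans ?_
    · refine sum_congr rfl fun x _ => ?_
      simp only [hS, ← sum_sub_distrib]
      congr 2
      exact sum_congr rfl fun n _ => by ring
    · refine mul_le_mul_of_nonneg_left ?_ hM'.le
      rw [hA, mul_sum]
      refine sum_le_sum fun n hn => ?_
      rw [norm_mul, mul_pow, Complex.norm_real, Real.norm_eq_abs, sq_abs, mul_comm]
      refine mul_le_mul_of_nonneg_right (pow_le_pow_left₀ (norm_nonneg _) ?_ 2) (sq_nonneg _)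
      have e : ee M ^ n = Complex.exp (Complex.I * (2 * Real.pi * n / M : ℝ)) := by
        rw [ee, ← Complex.exp_nat_mul]
        congr 1
        push_cast
        ring
      rw [e]
      refine Real.norm_exp_I_mul_ofReal_sub_one_le.trans ?_
      rw [Real.norm_of_nonneg (by positivity)]
      gcongr
      exact (mem_range.1 hn).le
  have h1 : ∀ x, |‖S (x + 1)‖ ^ 2 - ‖S x‖ ^ 2| ≤
      M / N * ‖S (x + 1) - S x‖ ^ 2 + N / M / 2 * (‖S (x + 1)‖ ^ 2 + ‖S x‖ ^ 2) := fun x => by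
    have h2 := abs_norm_sub_norm_le (S (x + 1)) (S x)
    have hκ : (0 : ℝ) < M / N := by positivity
    rw [sq_sub_sq, abs_mul, abs_of_nonneg (by positivity), show (N : ℝ) / M = ((M : ℝ) / N)⁻¹ by simp]
    generalize (M : ℝ) / N = κ at *
    refine (mul_le_mul_of_nonneg_left h2 (by positivity)).trans ?_
    generalize ‖S (x + 1) - S x‖ = u
    generalize ‖S (x + 1)‖ = v
    generalize ‖S x‖ = w
    have e : κ * u ^ 2 + κ⁻¹ / 2 * (v ^ 2 + w ^ 2) - (v + w) * u =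
        κ⁻¹ / 2 * ((κ * u - v) ^ 2 + (κ * u - w) ^ 2) := by field_simp; ring
    have : 0 ≤ κ⁻¹ / 2 * ((κ * u - v) ^ 2 + (κ * u - w) ^ 2) := by positivity
    linarith
  have h2 : ∑ x ∈ range M, |‖S (x + 1)‖ ^ 2 - ‖S x‖ ^ 2| ≤ 41 * N * A := by
    refine (sum_le_sum fun x _ => h1 x).trans ?_
    rw [sum_add_distrib, ← mul_sum, ← mul_sum, sum_add_distrib, p0, p1]
    refine (add_le_add_left (mul_le_mul_of_nonneg_left p2 (by positivity)) _).trans ?_
    have e : M / N * (M * ((2 * Real.pi * N / M) ^ 2 * A)) + N / M / 2 * (M * A + M * A) =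
        (4 * Real.pi ^ 2 + 1) * N * A := by field_simp; ring
    rw [e]
    have := Real.pi_lt_d2
    have := Real.pi_pos
    gcongr
    nlinarith
  rw [mul_sum]
  refine (sum_le_sum fun i _ => window (fun x => ‖S x‖ ^ 2) (y i) D).trans
    ((spaced Y y D M hs hle _ fun u => by positivity).trans ?_)
  rw [sum_add_distrib, ← mul_sum, p0]
  have := mul_le_mul_of_nonneg_left h2 (Nat.cast_nonneg D)
  linarith

theorem large_sieve {P : Finset ℕ} {Q : ℕ} (hQ : 0 < Q)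
    (hP : ∀ q ∈ P, q.Prime ∧ Q < q ∧ q ≤ 4 * Q) (N : ℕ) (a : ℕ → ℝ) :
    ∑ q ∈ P, En q N a ≤ (32 * Q ^ 2 + 41 * N) * ∑ n ∈ range N, a n ^ 2 := by
  obtain ⟨M, hM, hM1, hM2⟩ : ∃ M, (∀ q ∈ P, q ∣ M) ∧ N ≤ M ∧ 16 * Q ^ 2 ≤ M := by
    have h : 0 < ∏ q ∈ P, q := prod_pos fun q hq => (hP q hq).1.pos
    refine ⟨(∏ q ∈ P, q) * (16 * Q ^ 2 + N), fun q hq => (dvd_prod_of_mem _ hq).mul_right _, ?_, ?_⟩ <;>
      nlinarith
  have h16 : 0 < 16 * Q ^ 2 := by positivity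
  obtain ⟨D, hD⟩ : ∃ D, D = M / (16 * Q ^ 2) := ⟨_, rfl⟩
  have hD1 : 16 * Q ^ 2 * D ≤ M := hD ▸ Nat.mul_div_le _ _
  have hD2 : M < 16 * Q ^ 2 * (D + 1) := hD ▸ Nat.lt_mul_div_succ _ h16
  have hD0 : 0 < D := hD ▸ Nat.div_pos hM2 h16
  have key : ∀ q ∈ P, ∀ q' ∈ P, ∀ t t' : ℕ, t * q' < t' * q → M / q * t + D ≤ M / q' * t' := by
    intro q hq q' hq' t t' h
    obtain ⟨c, hc⟩ := hM q hq
    obtain ⟨c', hc'⟩ := hM q' hq'
    obtain ⟨a1, a2, a3⟩ := hP q hq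
    obtain ⟨b1, b2, b3⟩ := hP q' hq'
    rw [Nat.div_eq_of_eq_mul_right a1.pos hc, Nat.div_eq_of_eq_mul_right b1.pos hc']
    refine Nat.le_of_mul_le_mul_left (c := q * q') ?_ (Nat.mul_pos a1.pos b1.pos)
    calc q * q' * (c * t + D) = (q * c) * (t * q') + q * q' * D := by ring
      _ ≤ M * (t * q') + (4 * Q) * (4 * Q) * D := by rw [← hc]; gcongr
      _ ≤ M * (t * q' + 1) := by nlinarith
      _ ≤ (q' * c') * (t' * q) := by rw [← hc']; gcongr; exact h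
      _ = _ := by ring
  have := gallagher (P.sigma fun q => Ico 1 q) (fun z => M / z.1 * z.2) (D := D) (by omega) hM1
    (by
      rintro ⟨q, t⟩ h ⟨q', t'⟩ h' hne
      simp only [mem_sigma, mem_Ico] at h h'
      rcases lt_trichotomy (t * q') (t' * q) with e | e | e
      · exact Or.inl (key q h.1 q' h'.1 t t' e)
      · exfalso
        have h1 : q ∣ q' := ((hP q h.1).1.dvd_mul.1 ⟨t', e.trans (mul_comm _ _)⟩).resolve_left
          (Nat.not_dvd_of_pos_of_lt h.2.1 h.2.2)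
        obtain rfl := (Nat.prime_dvd_prime_iff_eq (hP q h.1).1 (hP q' h'.1).1).1 h1
        exact hne (by rw [Nat.eq_of_mul_eq_mul_right (hP q h.1).1.pos e])
      · exact Or.inr (key q' h'.1 q h.1 t' t e))
    (by
      rintro ⟨q, t⟩ h
      simp only [mem_sigma, mem_Ico] at h
      have := key q h.1 q h.1 t q (Nat.mul_lt_mul_of_pos_right h.2.2 (hP q h.1).1.pos)
      rwa [Nat.div_mul_cancel (hM q h.1)] at this) a
  rw [sum_sigma] at this
  have hD' : (0 : ℝ) < D := by exact_mod_cast hD0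
  refine le_of_mul_le_mul_left ((le_of_eq ?_).trans (this.trans ?_)) hD'
  · congr 1
    refine sum_congr rfl fun q hq => sum_congr rfl fun t _ => ?_
    have e : ee M ^ (M / q) = ee q := by
      obtain ⟨c, hc⟩ := hM q hq
      have h1 : (q : ℂ) ≠ 0 := by exact_mod_cast (hP q hq).1.ne_zero
      have h2 : (c : ℂ) ≠ 0 := by
        rw [Nat.cast_ne_zero]
        rintro rfl
        omega
      rw [Nat.div_eq_of_eq_mul_right (hP q hq).1.pos hc, ee, ee, ← Complex.exp_nat_mul, hc]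
      congr 1
      push_cast
      field_simp
    simp only [← e, ← pow_mul, mul_left_comm]
  · rw [← mul_assoc]
    refine mul_le_mul_of_nonneg_right ?_ (by positivity)
    have : (M : ℝ) ≤ 32 * Q ^ 2 * D := by exact_mod_cast (by nlinarith : M ≤ 32 * Q ^ 2 * D)
    linarith

/-- the balanced indicator of a residue class -/
noncomputable def fq (s q n : ℕ) : ℝ := (if n ≡ s [MOD q] then 1 else 0) - 1 / q

/-- sums over residue classes -/
noncomputable def cl (q N : ℕ) (a : ℕ → ℝ) (c : ZMod q) : ℝ :=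
  ∑ n ∈ range N, if (n : ZMod q) = c then a n else 0

lemma cl_sum (q N : ℕ) [NeZero q] (a : ℕ → ℝ) : ∑ c, cl q N a c = ∑ n ∈ range N, a n := by
  simp only [cl]
  rw [sum_comm]
  simp

lemma cl_var {q : ℕ} [NeZero q] (N : ℕ) (a : ℕ → ℝ) :
    ∑ c, (cl q N a c - (∑ n ∈ range N, a n) / q) ^ 2 = En q N a / q := by
  have hq : 0 < q := NeZero.pos q
  have hq' : (q : ℝ) ≠ 0 := by exact_mod_cast hq.ne'
  have hω : IsPrimitiveRoot (ee q) q := Complex.isPrimitiveRoot_exp q hq.ne'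
  have P := parseval univ hω hq ZMod.val (fun c _ => ZMod.val_lt c)
    (ZMod.val_injective q).injOn fun c => cl q N a c
  have e : ∀ t, ∑ c : ZMod q, (cl q N a c : ℂ) * ee q ^ (c.val * t) =
      ∑ n ∈ range N, (a n : ℂ) * ee q ^ (n * t) := fun t => by
    simp only [cl]
    push_cast
    simp only [sum_mul]
    rw [sum_comm]
    refine sum_congr rfl fun n _ => ?_
    rw [sum_eq_single (n : ZMod q) (fun c _ h => by simp [h.symm]) (by simp), if_pos rfl,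
      ZMod.val_natCast, pow_mul, pow_mul, ← pow_eq_pow_mod n hω.pow_eq_one]
  simp only [e, Complex.norm_real, Real.norm_eq_abs, sq_abs] at P
  rw [sum_range_eq_add_Ico _ hq] at P
  simp only [mul_zero, pow_zero, mul_one, ← Complex.ofReal_sum, Complex.norm_real,
    Real.norm_eq_abs, sq_abs] at P
  rw [En, eq_sub_of_add_eq' P]
  simp only [sub_sq, sum_add_distrib, sum_sub_distrib, ← sum_mul, ← mul_sum, cl_sum, sum_const,
    card_univ, ZMod.card, nsmul_eq_mul]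
  field_simp
  ring

/-- the weight of a sequence in the bilinear estimate -/
noncomputable def Wn (q N : ℕ) (a : ℕ → ℝ) : ℝ :=
  2 * En q N a / q + N * (∑ n ∈ range N, a n ^ 2) / q ^ 2

lemma amgm (x y : ℝ) {l : ℝ} (hl : 0 < l) : |x * y| ≤ l / 2 * x ^ 2 + l⁻¹ / 2 * y ^ 2 := by
  have e : l / 2 * |x| ^ 2 + l⁻¹ / 2 * |y| ^ 2 - |x| * |y| = l⁻¹ / 2 * (l * |x| - |y|) ^ 2 := by
    field_simp; ring
  have : 0 ≤ l⁻¹ / 2 * (l * |x| - |y|) ^ 2 := by positivity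
  rw [abs_mul, ← sq_abs x, ← sq_abs y]
  linarith

lemma cl_wn {q : ℕ} [NeZero q] (N : ℕ) (a : ℕ → ℝ) :
    En q N a / q + cl q N a 0 ^ 2 ≤ 2 * Wn q N a := by
  have h1 := single_le_sum (f := fun c => (cl q N a c - (∑ n ∈ range N, a n) / q) ^ 2)
    (fun _ _ => sq_nonneg _) (mem_univ 0)
  rw [cl_var] at h1
  have h2 : ((∑ n ∈ range N, a n) / q) ^ 2 ≤ N * (∑ n ∈ range N, a n ^ 2) / q ^ 2 := by
    rw [div_pow]
    gcongr
    simpa using sq_sum_le_card_mul_sum_sq (s := range N) (f := a)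
  rw [Wn, mul_div_assoc 2]
  nlinarith [sq_nonneg (cl q N a 0 - 2 * ((∑ n ∈ range N, a n) / q)),
    sq_nonneg (cl q N a 0 - (∑ n ∈ range N, a n) / q)]

lemma bil_one {q s : ℕ} (hq : q.Prime) (hs : ¬ q ∣ s) (N N' : ℕ) (a b : ℕ → ℝ) {l : ℝ} (hl : 0 < l) :
    |∑ d ∈ range N, ∑ k ∈ range N', a d * b k * fq s q (d * k)| ≤ l * Wn q N a + l⁻¹ * Wn q N' b := by
  have := Fact.mk hq
  have hq' : (q : ℝ) ≠ 0 := by exact_mod_cast hq.ne_zero
  have hs' : (s : ZMod q) ≠ 0 := fun h => hs ((ZMod.natCast_eq_zero_iff _ _).1 h)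
  have hinv : ∀ g : ZMod q → ℝ, ∑ c, g (c⁻¹ * s) = ∑ c, g c := fun g =>
    Equiv.sum_comp ((Equiv.inv (ZMod q)).trans (Equiv.mulRight₀ _ hs')) g
  have e1 : ∑ c, cl q N a c * cl q N' b (c⁻¹ * s) - cl q N a 0 * cl q N' b 0 =
      ∑ d ∈ range N, ∑ k ∈ range N', a d * b k * if d * k ≡ s [MOD q] then 1 else 0 := by
    simp only [cl, sum_mul_sum]
    rw [sum_comm, ← sum_sub_distrib]
    refine sum_congr rfl fun d _ => ?_
    rw [sum_comm, ← sum_sub_distrib]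
    refine sum_congr rfl fun k _ => ?_
    rw [sum_eq_single (d : ZMod q) (fun c _ h => by simp [h.symm]) (by simp), if_pos rfl]
    simp only [← ZMod.natCast_eq_natCast_iff, Nat.cast_mul]
    by_cases h : (d : ZMod q) = 0
    · simp [h, hs'.symm]
    · simp [h, eq_inv_mul_iff_mul_eq₀ h]
  have e2 : ∑ d ∈ range N, ∑ k ∈ range N', a d * b k * fq s q (d * k) =
      ∑ c, (cl q N a c - (∑ n ∈ range N, a n) / q) * (cl q N' b (c⁻¹ * s) - (∑ n ∈ range N', b n) / q) -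
        cl q N a 0 * cl q N' b 0 := by
    simp only [fq, mul_sub, sub_mul, sum_sub_distrib, ← e1]
    simp only [← sum_mul, ← mul_sum, hinv, cl_sum, sum_const, card_univ, ZMod.card, nsmul_eq_mul]
    field_simp
    ring
  rw [e2]
  refine (abs_sub _ _).trans ((add_le_add ((abs_sum_le_sum_abs _ _).trans
    (sum_le_sum fun c _ => amgm _ _ hl)) (amgm _ _ hl)).trans ?_)
  rw [sum_add_distrib, ← mul_sum, ← mul_sum, cl_var,
    hinv fun c => (cl q N' b c - (∑ n ∈ range N', b n) / q) ^ 2, cl_var]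
  have h1 := mul_le_mul_of_nonneg_left (cl_wn (q := q) N a) hl.le
  have h2 := mul_le_mul_of_nonneg_left (cl_wn (q := q) N' b) (inv_pos.2 hl).le
  linarith

variable {P : Finset ℕ} {Q s : ℕ}

lemma card_P (hP : ∀ q ∈ P, q.Prime ∧ Q < q ∧ q ≤ 4 * Q) : (#P : ℝ) ≤ 3 * Q := by
  have := card_le_card (show P ⊆ Ioc Q (4 * Q) from fun q hq => mem_Ioc.2 (hP q hq).2)
  rw [Nat.card_Ioc] at this
  exact_mod_cast (by omega : #P ≤ 3 * Q)

lemma sum_wn (hQ : 0 < Q) (hP : ∀ q ∈ P, q.Prime ∧ Q < q ∧ q ≤ 4 * Q) (N : ℕ) (a : ℕ → ℝ) :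
    ∑ q ∈ P, Wn q N a ≤ 85 * (Q ^ 2 + N) / Q * ∑ n ∈ range N, a n ^ 2 := by
  have hQ' : (0 : ℝ) < Q := by exact_mod_cast hQ
  have h1 := large_sieve hQ hP N a
  have h2 := card_P hP
  have hA : 0 ≤ ∑ n ∈ range N, a n ^ 2 := by positivity
  calc _ ≤ ∑ q ∈ P, (2 / Q * En q N a + N * (∑ n ∈ range N, a n ^ 2) / Q ^ 2) :=
        sum_le_sum fun q hq => by
          have : (Q : ℝ) ≤ q := by exact_mod_cast (hP q hq).2.1.le
          have h0 : 0 ≤ En q N a := sum_nonneg fun _ _ => sq_nonneg _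
          rw [Wn, div_mul_eq_mul_div]
          gcongr
    _ ≤ 2 / Q * ((32 * Q ^ 2 + 41 * N) * ∑ n ∈ range N, a n ^ 2) +
        3 * Q * (N * (∑ n ∈ range N, a n ^ 2) / Q ^ 2) := by
        rw [sum_add_distrib, ← mul_sum, sum_const, nsmul_eq_mul]
        gcongr
    _ = (64 * Q ^ 2 + 85 * N) / Q * ∑ n ∈ range N, a n ^ 2 := by field_simp; ring
    _ ≤ _ := by gcongr; nlinarith

lemma lt_split (J : ℕ) : ∀ k y : ℕ, y < 2 ^ J → (if k < y then (1 : ℝ) else 0) =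
    ∑ j ∈ range J, if k / 2 ^ j + 1 = y / 2 ^ j ∧ k / 2 ^ j % 2 = 0 then 1 else 0 := by
  induction J with
  | zero => intro k y h; simp at h; simp [h]
  | succ J ih =>
    intro k y h
    rw [sum_range_succ']
    simp only [pow_succ', ← Nat.div_div_eq_div_mul, pow_zero, Nat.div_one]
    rw [← ih (k / 2) (y / 2) (by omega)]
    split_ifs <;> first | omega | simp

lemma bil_cut (hQ : 0 < Q) (hP : ∀ q ∈ P, q.Prime ∧ Q < q ∧ q ≤ 4 * Q) (hs : ∀ q ∈ P, ¬ q ∣ s)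
    (N N' : ℕ) (a b : ℕ → ℝ)
    {l : ℝ} (hl : 0 < l) {J : ℕ} (y : ℕ → ℕ) (hy : ∀ d, y d < 2 ^ J) :
    ∑ q ∈ P, |∑ d ∈ range N, ∑ k ∈ range N', a d * b k * fq s q (d * k) * if k < y d then 1 else 0| ≤
      J * (l * (85 * (Q ^ 2 + N) / Q * ∑ n ∈ range N, a n ^ 2) +
        l⁻¹ * (85 * (Q ^ 2 + N') / Q * ∑ n ∈ range N', b n ^ 2)) := by
  let a' : ℕ → ℕ → ℕ → ℝ := fun j m d => if m + 1 = y d / 2 ^ j ∧ m % 2 = 0 then a d else 0
  let b' : ℕ → ℕ → ℕ → ℝ := fun j m k => if k / 2 ^ j = m then b k else 0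
  have e : ∀ q, ∑ d ∈ range N, ∑ k ∈ range N', (a d * b k * fq s q (d * k) * if k < y d then 1 else 0) =
      ∑ j ∈ range J, ∑ m ∈ range N', ∑ d ∈ range N, ∑ k ∈ range N',
        a' j m d * b' j m k * fq s q (d * k) := fun q => by
    simp only [lt_split J _ _ (hy _), mul_sum]
    rw [sum_congr rfl fun d _ => sum_comm, sum_comm]
    refine sum_congr rfl fun j _ => ?_
    rw [sum_comm (s := range N')]
    refine sum_congr rfl fun d _ => ?_
    rw [sum_comm (s := range N')]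
    refine sum_congr rfl fun k hk => ?_
    rw [sum_eq_single (k / 2 ^ j) (fun m _ h => by simp [b', h.symm])
      fun h => absurd (mem_range.2 ((Nat.div_le_self _ _).trans_lt (mem_range.1 hk))) h]
    simp only [a', b']
    split_ifs <;> simp_all
  have ha : ∀ j, ∑ m ∈ range N', ∑ n ∈ range N, a' j m n ^ 2 ≤ ∑ n ∈ range N, a n ^ 2 := fun j => by
    rw [sum_comm]
    refine sum_le_sum fun d _ => (sum_le_sum fun m _ =>
      show _ ≤ if y d / 2 ^ j - 1 = m then a d ^ 2 else 0 from ?_).trans ?_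
    · simp only [a']
      split_ifs <;> first | omega | simp [sq_nonneg]
    · rw [sum_ite_eq]
      split_ifs <;> first | rfl | positivity
  have hb : ∀ j, ∑ m ∈ range N', ∑ n ∈ range N', b' j m n ^ 2 ≤ ∑ n ∈ range N', b n ^ 2 := fun j => by
    rw [sum_comm]
    refine sum_le_sum fun d _ => ?_
    simp only [b', ite_pow, ne_eq, OfNat.ofNat_ne_zero, not_false_eq_true, zero_pow, sum_ite_eq]
    split_ifs <;> first | rfl | positivity
  calc _ ≤ ∑ q ∈ P, ∑ j ∈ range J, ∑ m ∈ range N',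
        (l * Wn q N (a' j m) + l⁻¹ * Wn q N' (b' j m)) := sum_le_sum fun q hq => by
        rw [e]
        exact (abs_sum_le_sum_abs _ _).trans (sum_le_sum fun j _ => (abs_sum_le_sum_abs _ _).trans
          (sum_le_sum fun m _ => bil_one (hP q hq).1 (hs q hq) _ _ _ _ hl))
    _ ≤ _ := by
        rw [sum_comm, ← card_range J, ← nsmul_eq_mul, card_range]
        refine (sum_le_card_nsmul _ _ _ fun j _ => ?_).trans_eq (by rw [card_range])
        rw [sum_comm]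
        simp only [sum_add_distrib, ← mul_sum]
        gcongr
        · refine (sum_le_sum fun m _ => sum_wn hQ hP N _).trans ?_
          rw [← mul_sum]
          exact mul_le_mul_of_nonneg_left (ha j) (by positivity)
        · refine (sum_le_sum fun m _ => sum_wn hQ hP N' _).trans ?_
          rw [← mul_sum]
          exact mul_le_mul_of_nonneg_left (hb j) (by positivity)

open ArithmeticFunction Pool.Agent.MP_e3ece1_pr

lemma sum_conv (f g : ArithmeticFunction ℝ) (F : ℕ → ℝ) (N : ℕ) :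
    ∑ n ∈ Ioc 0 N, (f * g) n * F n =
      ∑ d ∈ Ioc 0 N, f d * ∑ k ∈ Ioc 0 (N / d), g k * F (d * k) := by
  simp only [ArithmeticFunction.mul_apply, sum_mul, mul_sum]
  rw [sum_sigma', sum_sigma']
  refine sum_nbij' (fun x => ⟨x.2.1, x.2.2⟩) (fun x => ⟨x.1 * x.2, (x.1, x.2)⟩) ?_ ?_ ?_ ?_ ?_
  · rintro ⟨n, d, k⟩ h
    simp only [mem_sigma, mem_Ioc, Nat.mem_divisorsAntidiagonal] at h ⊢
    obtain ⟨⟨h1, h2⟩, rfl, h4⟩ := h
    have hd : 0 < d := Nat.pos_of_ne_zero (left_ne_zero_of_mul h4)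
    have hk : 0 < k := Nat.pos_of_ne_zero (right_ne_zero_of_mul h4)
    refine ⟨⟨hd, le_trans (Nat.le_mul_of_pos_right d hk) h2⟩, hk, ?_⟩
    rw [Nat.le_div_iff_mul_le hd, mul_comm]
    exact h2
  · rintro ⟨d, k⟩ h
    simp only [mem_sigma, mem_Ioc, Nat.mem_divisorsAntidiagonal] at h ⊢
    obtain ⟨⟨h1, h2⟩, h3, h4⟩ := h
    rw [Nat.le_div_iff_mul_le h1, mul_comm] at h4
    exact ⟨⟨Nat.mul_pos h1 h3, h4⟩, trivial, (Nat.mul_pos h1 h3).ne'⟩
  · rintro ⟨n, d, k⟩ h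
    simp only [mem_sigma, mem_Ioc, Nat.mem_divisorsAntidiagonal] at h
    obtain ⟨_, rfl, _⟩ := h
    rfl
  · rintro ⟨d, k⟩ _
    rfl
  · rintro ⟨n, d, k⟩ h
    simp only [mem_sigma, mem_Ioc, Nat.mem_divisorsAntidiagonal] at h
    obtain ⟨_, rfl, _⟩ := h
    ring

lemma fq_le {q : ℕ} (hq : 0 < q) (n : ℕ) : |fq s q n| ≤ 1 := by
  have h1 : (1 : ℝ) / q ≤ 1 := (div_le_one (by positivity)).2 (by exact_mod_cast hq)
  have h2 : (0 : ℝ) ≤ 1 / q := by positivity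
  rw [fq, abs_le]
  split_ifs <;> constructor <;> linarith

lemma fq_sum {q d : ℕ} (hq : 0 < q) (hd : d.Coprime q) (Y : ℕ) :
    |∑ k ∈ range Y, fq s q (d * k)| ≤ 1 := by
  obtain ⟨v, hv⟩ := Nat.exists_mul_mod_eq_of_coprime s hd hq.ne'
  have e : ∀ k, d * k ≡ s [MOD q] ↔ k ≡ v [MOD q] := fun k =>
    ⟨fun h => Nat.ModEq.cancel_left_of_coprime hd.symm (h.trans (Eq.symm hv.2)),
      fun h => (h.mul_left d).trans hv.2⟩
  simp only [fq, e, sum_sub_distrib, sum_boole, ← Nat.count_eq_card_filter_range,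
    Nat.count_modEq_card _ hq, sum_const, card_range, nsmul_eq_mul]
  have hq' : (0 : ℝ) < q := by positivity
  have h1 : ((Y / q : ℕ) : ℝ) ≤ Y * (1 / q) := by simpa [div_eq_mul_inv] using Nat.cast_div_le
  have h2 : (Y : ℝ) * (1 / q) ≤ (Y / q : ℕ) + 1 := by
    rw [mul_one_div, div_le_iff₀ hq']
    exact_mod_cast (by simpa [mul_comm] using (Nat.lt_mul_div_succ Y hq).le : Y ≤ (Y / q + 1) * q)
  push_cast
  rw [abs_le]
  split_ifs <;> constructor <;> linarith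

lemma abel_real {c u : ℕ → ℝ} (hc : Monotone c) (h0 : c 0 = 0)
    (hu : ∀ Y, |∑ k ∈ range Y, u k| ≤ 1) (Y : ℕ) :
    |∑ k ∈ range (Y + 1), c k * u k| ≤ 2 * c Y := by
  have key : |∑ k ∈ range (Y + 1), c k * u k - c Y * ∑ k ∈ range (Y + 1), u k| ≤ c Y := by
    induction Y with
    | zero => simp [h0]
    | succ Y ih =>
      have h1 := hc (Nat.le_succ Y)
      have h2 : |(c Y - c (Y + 1)) * ∑ k ∈ range (Y + 1), u k| ≤ c (Y + 1) - c Y := by
        rw [abs_mul, abs_sub_comm, abs_of_nonneg (sub_nonneg.2 h1)]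
        exact mul_le_of_le_one_right (sub_nonneg.2 h1) (hu _)
      rw [sum_range_succ _ (Y + 1), sum_range_succ u (Y + 1)]
      rw [abs_le] at *
      constructor <;> nlinarith [ih.1, ih.2, h2.1, h2.2]
  have h1 : 0 ≤ c Y := h0 ▸ hc (Nat.zero_le Y)
  have h2 : |c Y * ∑ k ∈ range (Y + 1), u k| ≤ c Y := by
    rw [abs_mul, abs_of_nonneg h1]
    exact mul_le_of_le_one_right h1 (hu _)
  rw [abs_le] at *
  constructor <;> linarith [key.1, key.2, h2.1, h2.2]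

lemma sum_Ioc_range (g : ArithmeticFunction ℝ) (F : ℕ → ℝ) (Y : ℕ) :
    ∑ k ∈ Ioc 0 Y, g k * F k = ∑ k ∈ range (Y + 1), g k * F k := by
  rw [range_eq_Ico, sum_eq_sum_Ico_succ_bot (Nat.succ_pos Y)]
  simp only [ArithmeticFunction.map_zero, zero_mul, zero_add]
  rfl

lemma small_sum {F : ℕ → ℝ} {X Y : ℕ} {B : ℝ} (hB : 0 ≤ B) (h1 : ∀ d ∈ Ioc 0 X, d ≤ Y → |F d| ≤ B)
    (h2 : ∀ d, Y < d → F d = 0) : |∑ d ∈ Ioc 0 X, F d| ≤ Y * B := by
  rw [← sum_filter_of_ne (p := fun d => d ≤ Y) fun d _ h => not_lt.1 fun h' => h (h2 d h')]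
  refine (abs_sum_le_sum_abs _ _).trans ((sum_le_card_nsmul _ _ B fun d hd =>
    h1 d (mem_filter.1 hd).1 (mem_filter.1 hd).2).trans ?_)
  rw [nsmul_eq_mul]
  refine mul_le_mul_of_nonneg_right (Nat.cast_le.2 ((card_le_card fun d hd => ?_).trans_eq
    (by simp : #(Ioc 0 Y) = Y))) hB
  simp only [mem_filter, mem_Ioc] at hd ⊢
  omega

lemma typeI {q X U : ℕ} (hq : q.Prime) (hU : U * U < q) {L : ℝ} (hL : Real.log X ≤ L) :
    |∑ n ∈ Ioc 0 X, Λ n * fq s q n -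
      ∑ n ∈ Ioc 0 X, (hi mob U * (hi Λ U * zet)) n * fq s q n| ≤ 5 * U ^ 2 * L := by
  have hl : ∀ d, d ≤ X → Real.log d ≤ L := fun d hd => (log_mono hd).trans hL
  have hL0 : 0 ≤ L := (Real.log_natCast_nonneg X).trans hL
  have hUU : U ≤ U * U := Nat.le_mul_self U
  have hc : ∀ d ∈ Ioc 0 X, d ≤ U * U → d.Coprime q := fun d hd h =>
    (Nat.coprime_of_lt_prime (mem_Ioc.1 hd).1.ne' (h.trans_lt hU) hq).symm
  have e : Λ = hi mob U * (hi Λ U * zet) + (lo Λ U + lo mob U * log - lo mob U * lo Λ U * zet) := by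
    have h1 := vaughan U 0
    have h2 := lo_add_hi (hi mob U) 0
    linear_combination h1 + (hi Λ U * zet) * h2
  have h1 : |∑ n ∈ Ioc 0 X, lo Λ U n * fq s q n| ≤ U * L :=
    small_sum hL0 (fun d hd h => by
      rw [lo_apply, if_pos h, abs_mul, abs_of_nonneg vonMangoldt_nonneg]
      exact (mul_le_of_le_one_right vonMangoldt_nonneg (fq_le hq.pos d)).trans
        (vonMangoldt_le_log.trans (hl d (mem_Ioc.1 hd).2)))
      fun d h => by rw [lo_apply, if_neg h.not_ge, zero_mul]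
  have h2 : |∑ n ∈ Ioc 0 X, (lo mob U * log) n * fq s q n| ≤ U * (2 * L) := by
    rw [sum_conv]
    refine small_sum (by positivity) (fun d hd h => ?_)
      fun d h => by rw [lo_apply, if_neg h.not_ge, zero_mul]
    rw [lo_apply, if_pos h, abs_mul, sum_Ioc_range]
    refine (mul_le_of_le_one_left (abs_nonneg _) (abs_mob_le d)).trans
      ((abel_real log_mono (by simp) (fq_sum hq.pos (hc d hd (h.trans hUU))) _).trans ?_)
    have := hl _ (Nat.div_le_self X d)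
    linarith
  have h3 : |∑ n ∈ Ioc 0 X, (lo mob U * lo Λ U * zet) n * fq s q n| ≤ (U * U : ℕ) * (L * 2) := by
    rw [sum_conv]
    refine small_sum (by positivity) (fun d hd h => ?_) fun d h => by rw [gamma_zero h, zero_mul]
    rw [abs_mul]
    refine mul_le_mul ((gamma_bound U d).trans (hl d (mem_Ioc.1 hd).2)) ?_ (abs_nonneg _) hL0
    have a1 := fq_sum (s := s) hq.pos (hc d hd h) (X / d + 1)
    have a2 := fq_le (s := s) hq.pos (d * 0)
    rw [range_eq_Ico, sum_eq_sum_Ico_succ_bot (Nat.succ_pos _)] at a1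
    have a3 : ∑ k ∈ Ioc 0 (X / d), zet k * fq s q (d * k) = ∑ k ∈ Ico (0 + 1) (X / d + 1), fq s q (d * k) :=
      sum_congr rfl fun k hk => by simp [zet, (mem_Ioc.1 hk).1.ne']
    rw [a3]
    rw [abs_le] at *
    constructor <;> linarith [a1.1, a1.2, a2.1, a2.2]
  have h4 : (U : ℝ) * L ≤ U ^ 2 * L := by
    gcongr
    exact_mod_cast (by nlinarith : U ≤ U ^ 2)
  nth_rewrite 1 [e]
  simp only [sub_eq_add_neg, ArithmeticFunction.add_apply, ArithmeticFunction.neg_apply, add_mul,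
    neg_mul, sum_add_distrib, sum_neg_distrib]
  push_cast at h3
  rw [abs_le] at *
  constructor <;> nlinarith [h1.1, h1.2, h2.1, h2.2, h3.1, h3.2]

lemma dyadic (G : ℕ → ℝ) (J : ℕ) : ∑ d ∈ Ico 1 (2 ^ J), G d =
    ∑ j ∈ range J, ∑ d ∈ range (2 ^ (j + 1)), if 2 ^ j ≤ d then G d else 0 := by
  induction J with
  | zero => simp
  | succ J ih =>
    rw [sum_range_succ, ← ih, ← sum_filter, ← sum_Ico_consecutive G Nat.one_le_two_pow
      (Nat.pow_le_pow_right two_pos (Nat.le_succ J))]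
    congr 2
    ext d
    simp [and_comm]

lemma block_num {Q N N' X W Z : ℝ} (hQ : 0 ≤ Q) (hN : 0 ≤ N) (hN' : 0 ≤ N') (hW : 0 < W) (hZ : 0 ≤ Z)
    (h1 : N * N' ≤ 4 * X) (h2 : W ^ 2 ≤ N) (h3 : W ^ 2 ≤ N') (h4 : X ≤ Z ^ 2) :
    (Q ^ 2 + N) * N * ((Q ^ 2 + N') * N') ≤ (4 * X + 6 * Q * (X / W) + 2 * Q ^ 2 * Z) ^ 2 := by
  have hX : 0 ≤ X := by nlinarith [mul_nonneg hN hN']
  have h5 : N + N' ≤ 8 * X / W ^ 2 := by
    rw [le_div_iff₀ (by positivity)]
    nlinarith [mul_le_mul_of_nonneg_left h3 hN, mul_le_mul_of_nonneg_left h2 hN']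
  calc _ = Q ^ 4 * (N * N') + Q ^ 2 * (N + N') * (N * N') + (N * N') ^ 2 := by ring
    _ ≤ Q ^ 4 * (4 * Z ^ 2) + Q ^ 2 * (8 * X / W ^ 2) * (4 * X) + (4 * X) ^ 2 := by
        have h6 : N * N' ≤ 4 * Z ^ 2 := by linarith
        have h7 := mul_nonneg hN hN'
        generalize N * N' = T at *
        gcongr
    _ = (2 * Q ^ 2 * Z) ^ 2 + 32 * (Q * (X / W)) ^ 2 + (4 * X) ^ 2 := by field_simp; ring
    _ ≤ _ := by
        have a1 : 0 ≤ Q * (X / W) := by positivity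
        have a2 : 0 ≤ Q ^ 2 * Z := by positivity
        nlinarith [mul_nonneg a1 a2, mul_nonneg a1 hX, mul_nonneg a2 hX, sq_nonneg (Q * (X / W))]

lemma typeII (hQ : 0 < Q) (hP : ∀ q ∈ P, q.Prime ∧ Q < q ∧ q ≤ 4 * Q) (hs : ∀ q ∈ P, ¬ q ∣ s)
    {X W Z J : ℕ} {L : ℝ}
    (hW : 0 < W) (hZ : X ≤ Z ^ 2) (hJ : X + 1 < 2 ^ J) (hL : 0 < L) (a b : ArithmeticFunction ℝ)
    (ha : ∀ d, |a d| ≤ 1) (ha0 : ∀ d, d ≤ W ^ 2 → a d = 0) (hb : ∀ k, k ≤ X → |b k| ≤ L)
    (hb0 : ∀ k, k ≤ W ^ 2 → b k = 0) :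
    ∑ q ∈ P, |∑ n ∈ Ioc 0 X, (a * b) n * fq s q n| ≤
      J ^ 2 * (170 * L * ((4 * X + 6 * Q * (X / W) + 2 * Q ^ 2 * Z) / Q)) := by
  set R : ℝ := 4 * X + 6 * Q * (X / W) + 2 * Q ^ 2 * Z with hR
  have hR0 : 0 ≤ R := by positivity
  let a' : ℕ → ℕ → ℝ := fun j d => if 2 ^ j ≤ d then a d else 0
  have e : ∀ q, ∑ n ∈ Ioc 0 X, (a * b) n * fq s q n = ∑ j ∈ range J, ∑ d ∈ range (2 ^ (j + 1)),
      ∑ k ∈ range (X / 2 ^ j + 1), a' j d * b k * fq s q (d * k) * if k < X / d + 1 then 1 else 0 := by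
    intro q
    rw [sum_conv, sum_subset (s₂ := Ico 1 (2 ^ J)) (fun d hd => by
      simp only [mem_Ioc, mem_Ico] at hd ⊢
      omega) (fun d h1 h2 => by
      simp only [mem_Ioc, mem_Ico] at h1 h2
      simp [Nat.div_eq_of_lt (by omega : X < d)]), dyadic]
    refine sum_congr rfl fun j _ => sum_congr rfl fun d _ => ?_
    by_cases h : 2 ^ j ≤ d
    · simp only [a', if_pos h, mul_ite, mul_one, mul_zero]
      rw [← sum_filter, sum_Ioc_range, mul_sum]
      refine sum_congr ?_ fun _ _ => by ring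
      have := Nat.div_le_div_left (a := X) h (by positivity)
      ext k
      simp only [mem_filter, mem_range]
      omega
    · simp [a', h]
  simp only [e]
  refine (sum_le_sum fun q _ => abs_sum_le_sum_abs _ _).trans ?_
  rw [sum_comm, sq, mul_assoc]
  refine (sum_le_card_nsmul _ _ _ fun j _ => ?_).trans_eq (by rw [card_range, nsmul_eq_mul])
  by_cases h1 : 2 ^ (j + 1) ≤ W ^ 2
  · refine (sum_eq_zero fun q _ => abs_eq_zero.2 (sum_eq_zero fun d hd => ?_)).trans_le (by positivity)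
    simp [a', ha0 d ((mem_range.1 hd).le.trans h1)]
  by_cases h2 : X / 2 ^ j ≤ W ^ 2
  · refine (sum_eq_zero fun q _ => abs_eq_zero.2 (sum_eq_zero fun d _ =>
      sum_eq_zero fun k hk => ?_)).trans_le (by positivity)
    simp [hb0 k ((Nat.lt_succ_iff.1 (mem_range.1 hk)).trans h2)]
  have h3 : 2 ^ (j + 1) * (X / 2 ^ j + 1) ≤ 4 * X := by
    have := Nat.mul_div_le X (2 ^ j)
    have h4 : X / 2 ^ j + 1 ≤ 2 * (X / 2 ^ j) := by omega
    calc _ ≤ 2 ^ (j + 1) * (2 * (X / 2 ^ j)) := Nat.mul_le_mul_left _ h4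
      _ = 4 * (2 ^ j * (X / 2 ^ j)) := by ring
      _ ≤ _ := by omega
  have h4 : W ^ 2 ≤ X / 2 ^ j + 1 := by omega
  have hX : 0 < X := Nat.pos_of_ne_zero fun h => by simp [h] at h2
  have hA : ∑ n ∈ range (2 ^ (j + 1)), a' j n ^ 2 ≤ (2 ^ (j + 1) : ℕ) := by
    refine (sum_le_card_nsmul _ _ 1 fun d _ => ?_).trans_eq (by simp)
    simp only [a']
    split_ifs
    · exact (sq_le_one_iff_abs_le_one _).2 (ha d)
    · simp
  have hB : ∑ n ∈ range (X / 2 ^ j + 1), b n ^ 2 ≤ (X / 2 ^ j + 1 : ℕ) * L ^ 2 := by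
    refine (sum_le_card_nsmul _ _ (L ^ 2) fun k hk => ?_).trans_eq (by simp)
    exact sq_le_sq' (abs_le.1 (hb k ((Nat.lt_succ_iff.1 (mem_range.1 hk)).trans
      (Nat.div_le_self _ _)))).1 (abs_le.1 (hb k ((Nat.lt_succ_iff.1 (mem_range.1 hk)).trans
      (Nat.div_le_self _ _)))).2
  have h5 := block_num (Q := Q) (N := (2 ^ (j + 1) : ℕ)) (N' := (X / 2 ^ j + 1 : ℕ)) (X := X)
    (W := W) (Z := Z) (by positivity) (by positivity) (by positivity) (by positivity)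
    (by positivity) (by exact_mod_cast h3) (by exact_mod_cast (not_le.1 h1).le)
    (by exact_mod_cast h4) (by exact_mod_cast hZ)
  rw [← hR] at h5
  have hR1 : 0 < R := by positivity
  have hN : 0 < 2 ^ (j + 1) := by positivity
  generalize 2 ^ (j + 1) = N at *
  generalize X / 2 ^ j + 1 = N' at *
  refine (bil_cut hQ hP hs N N' (a' j) b (l := L * R / ((Q ^ 2 + N) * N)) (by positivity) (J := J)
    (fun d => X / d + 1) fun d => by have := Nat.div_le_self X d; omega).trans ?_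
  calc _ ≤ (J : ℝ) * (L * R / ((Q ^ 2 + N) * N) * (85 * (Q ^ 2 + N) / Q * N) +
        (L * R / ((Q ^ 2 + N) * N))⁻¹ * (85 * (Q ^ 2 + N') / Q * (N' * L ^ 2))) := by gcongr
    _ = J * (85 * L * (R / Q) + 85 * L / (Q * R) * ((Q ^ 2 + N) * N * ((Q ^ 2 + N') * N'))) := by
        field_simp
    _ ≤ J * (85 * L * (R / Q) + 85 * L / (Q * R) * R ^ 2) := by gcongr
    _ = _ := by field_simp; ring

/-- a Bombieri-Vinogradov estimate for prime moduli and the class of `s` -/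
theorem bv (hQ : 0 < Q) (hP : ∀ q ∈ P, q.Prime ∧ Q < q ∧ q ≤ 4 * Q) (hs : ∀ q ∈ P, ¬ q ∣ s)
    {X W Z J : ℕ} {L : ℝ}
    (hW : 0 < W) (hWQ : W ^ 4 ≤ Q) (hZ : X ≤ Z ^ 2) (hJ : X + 1 < 2 ^ J) (hL0 : 0 < L)
    (hL : Real.log X ≤ L) : ∑ q ∈ P, |∑ n ∈ Ioc 0 X, Λ n * fq s q n| ≤
      15 * Q * W ^ 4 * L + J ^ 2 * (170 * L * ((4 * X + 6 * Q * (X / W) + 2 * Q ^ 2 * Z) / Q)) := by
  have h2 := typeII hQ hP hs hW hZ hJ hL0 (hi mob (W ^ 2)) (hi Λ (W ^ 2) * zet)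
    (fun d => by
      rw [hi_apply]
      split_ifs
      · exact abs_mob_le d
      · simp) (fun d h => by rw [hi_apply, if_neg h.not_gt])
    (fun k hk => (beta_bound _ k).trans ((log_mono hk).trans hL)) fun k h => beta_zero h
  calc _ ≤ ∑ q ∈ P, (5 * (W ^ 2 : ℕ) ^ 2 * L +
        |∑ n ∈ Ioc 0 X, (hi mob (W ^ 2) * (hi Λ (W ^ 2) * zet)) n * fq s q n|) :=
        sum_le_sum fun q hq => by
          have := typeI (s := s) (X := X) (U := W ^ 2) (hP q hq).1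
            (by have := (hP q hq).2.1; nlinarith) hL
          linarith [abs_sub_abs_le_abs_sub (∑ n ∈ Ioc 0 X, Λ n * fq s q n)
            (∑ n ∈ Ioc 0 X, (hi mob (W ^ 2) * (hi Λ (W ^ 2) * zet)) n * fq s q n)]
    _ ≤ 3 * Q * (5 * (W ^ 2 : ℕ) ^ 2 * L) + _ := by
        rw [sum_add_distrib, sum_const, nsmul_eq_mul]
        exact add_le_add (mul_le_mul_of_nonneg_right (card_P hP) (by positivity)) h2
    _ = _ := by push_cast; ring

end Pool.Agent.MP_257582_lc.H99
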