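import Pool.Agent.MP_257582_lc.Blow
import Pool.Agent.MP_257582_lc.H49.Twin1

/-!
The fixed point theorem of Oliver for groups that are (elementary abelian) by cyclic by cyclic of
prime order.
-/

set_option autoImplicit false

namespace Pool.Agent.MP_257582_lc.H99

open Finset

section oliver

variable {V : Type*} [Fintype V] [DecidableEq V]

/-- the integral boundary operator -/
def bdZ (r : V → ℕ) : (Finset V → ℤ) →ₗ[ℤ] (Finset V → ℤ) where
  toFun z := fun σ => ∑ a : V, if a ∈ σ then 0 else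
    (∏ b ∈ σ, if r b < r a then -1 else 1) * z (insert a σ)
  map_add' z w := by
    ext σ
    simp only [Pi.add_apply, ← sum_add_distrib]
    exact sum_congr rfl fun a _ => by split_ifs <;> simp [mul_add]
  map_smul' c z := by
    ext σ
    simp only [Pi.smul_apply, smul_eq_mul, RingHom.id_apply, mul_sum]
    exact sum_congr rfl fun a _ => by split_ifs <;> simp [mul_left_comm]

lemma bdZ_cast (F : Type*) [Field F] (r : V → ℕ) (z : Finset V → ℤ) :
    bd r (fun σ => (z σ : F)) = fun σ => ((bdZ r z σ : ℤ) : F) := by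
  ext σ
  rw [bd_apply]
  simp only [bdZ, LinearMap.coe_mk, AddHom.coe_mk, ann_apply, sg, tt]
  push_cast
  rfl

lemma acyc_rat {p : ℕ} [Fact p.Prime] {r : V → ℕ} (hr : Function.Injective r)
    {K : Set (Finset V)} (hK : IsLowerSet K) (hA : Acyc (ZMod p) r K) : Acyc ℚ r K := by
  classical
  have hp : p.Prime := Fact.out
  let S : Submodule ℤ (Finset V → ℤ) :=
    { carrier := {z | ∀ σ, σ ∉ K → z σ = 0}
      zero_mem' := fun _ _ => rfl
      add_mem' := fun {a b} ha hb σ h => by simp [ha σ h, hb σ h]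
      smul_mem' := fun c a ha σ h => by simp [ha σ h] }
  have hS : ∀ y ∈ S, bdZ r y ∈ S := fun y hy σ h => by
    have h1 : Supp K (fun σ => (y σ : ℚ)) := fun σ h => by simp [hy σ h]
    have h2 := h1.bd hK r σ h
    rw [bdZ_cast] at h2
    exact Int.cast_eq_zero.1 h2
  have hbb : ∀ y, bdZ r (bdZ r y) = 0 := fun y => by
    have h2 := bd_bd (F := ℚ) hr (fun σ => (y σ : ℚ))
    rw [bdZ_cast, bdZ_cast] at h2
    ext σ
    have := congrFun h2 σ
    simp only [Pi.zero_apply] at this ⊢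
    exact_mod_cast this
  let N : Submodule ℤ (Finset V → ℤ) := S ⊓ LinearMap.ker (bdZ r)
  obtain ⟨m, hm1, hm⟩ := Submodule.exists_sub_one_mem_and_smul_le_of_fg_of_le_sup
    (I := Ideal.span {(p : ℤ)}) (N := S.map (bdZ r)) (N' := N) (P := N)
    (IsNoetherian.noetherian N) le_rfl (fun z hz => by
      obtain ⟨c, hc, hcz⟩ := hA (fun σ => (z σ : ZMod p)) (fun σ h => by simp [hz.1 σ h]) (by
        rw [bdZ_cast, LinearMap.mem_ker.1 hz.2]; ext σ; simp)
      let y : Finset V → ℤ := fun σ => (c σ).val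
      have hy : y ∈ S := fun σ h => by simp [y, hc σ h]
      have e : (fun σ => ((y σ : ℤ) : ZMod p)) = c := by ext σ; simp [y]
      rw [← e, bdZ_cast] at hcz
      have hd : ∀ σ, ∃ w : ℤ, z σ - bdZ r y σ = p * w := fun σ =>
        (ZMod.intCast_eq_intCast_iff_dvd_sub _ _ p).1 (congrFun hcz σ)
      choose w hw using hd
      have hp0 : (p : ℤ) ≠ 0 := by exact_mod_cast hp.ne_zero
      have e2 : z - bdZ r y = (p : ℤ) • w := funext hw
      have hw1 : w ∈ N := by
        refine ⟨fun σ h => ?_, ?_⟩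
        · have := hw σ
          rw [hz.1 σ h, hS y hy σ h, sub_zero] at this
          exact (mul_eq_zero.1 this.symm).resolve_left hp0
        · have := congrArg (bdZ r) e2
          rw [map_sub, hbb, LinearMap.mem_ker.1 hz.2, sub_zero, map_smul] at this
          exact (smul_eq_zero.1 this.symm).resolve_left hp0
      rw [show z = bdZ r y + (p : ℤ) • w by rw [← e2]; abel]
      exact Submodule.add_mem_sup ⟨y, hy, rfl⟩
        (Submodule.smul_mem_smul (Ideal.mem_span_singleton_self _) hw1))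
  have hm0 : (m : ℚ) ≠ 0 := by
    intro h
    have h0 : m = 0 := by exact_mod_cast h
    rw [h0, Ideal.mem_span_singleton, zero_sub, Int.dvd_neg] at hm1
    exact hp.one_lt.ne' (by exact_mod_cast Int.eq_one_of_dvd_one (by positivity) hm1)
  intro z hz h0
  obtain ⟨D, hD⟩ := IsLocalization.exist_integer_multiples_of_finite (nonZeroDivisors ℤ) z
  choose z' hz' using hD
  have hD0 : ((D : ℤ) : ℚ) ≠ 0 := by exact_mod_cast nonZeroDivisors.coe_ne_zero D
  have e : (fun σ => (z' σ : ℚ)) = ((D : ℤ) : ℚ) • z := by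
    ext σ
    simpa using hz' σ
  have hN : z' ∈ N := by
    refine ⟨fun σ h => ?_, ?_⟩
    · have := congrFun e σ
      simp only [Pi.smul_apply, hz σ h, smul_zero] at this
      exact_mod_cast this
    · have := bdZ_cast ℚ r z'
      rw [e, map_smul, h0, smul_zero] at this
      ext σ
      have := congrFun this σ
      simp only [Pi.zero_apply] at this ⊢
      exact_mod_cast this.symm
  obtain ⟨y, hy, hyz⟩ := hm (Submodule.smul_mem_pointwise_smul z' m N hN)
  refine ⟨((m : ℚ) * (D : ℤ))⁻¹ • fun σ => (y σ : ℚ), fun σ h => by simp [hy σ h], ?_⟩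
  rw [map_smul, bdZ_cast, hyz]
  ext σ
  have := congrFun e σ
  simp only [Pi.smul_apply, smul_eq_mul] at this ⊢
  push_cast
  rw [this]
  field_simp

lemma exists_fixed {Ω : Type*} [Fintype Ω] [DecidableEq Ω] {K : Set (Finset Ω)} [DecidablePred (· ∈ K)]
    (h0 : ∅ ∈ K) (hE : ∑ A : Finset Ω, (if A ∈ K then (-1 : ℚ) ^ A.card else 0) = 0) {q : ℕ}
    (hq : q.Prime) (t : Ω → Ω) (ht : t^[q] = id) (hK : ∀ A ∈ K, A.image t ∈ K) :
    ∃ A ∈ K, A.Nonempty ∧ A.image t = A := by
  by_contra hc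
  have := Fact.mk hq
  have hinj : Function.Injective t := by
    have : Function.Injective t^[q - 1 + 1] := by
      rw [Nat.sub_add_cancel hq.pos, ht]; exact Function.injective_id
    exact Function.Injective.of_comp this
  have key : ∀ (c : ℕ → Prop) [DecidablePred c], Fintype.card {A // A ∈ K ∧ c A.card} ≡
      (if c 0 then 1 else 0) [MOD q] := by
    intro c _
    let T : Function.End {A // A ∈ K ∧ c A.card} := fun A =>
      ⟨A.1.image t, hK _ A.2.1, by rw [card_image_of_injective _ hinj]; exact A.2.2⟩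
    have hT : ∀ j A, ((T ^ j) A).1 = A.1.image t^[j] := fun j A => by
      induction j with
      | zero => exact image_id.symm
      | succ j ih =>
        rw [pow_succ', Function.iterate_succ', ← image_image, ← ih]; rfl
    have := Equiv.Perm.card_fixedPoints_modEq (f := T) (p := q) (n := 1)
      (funext fun A => Subtype.ext (by rw [pow_one, hT, ht]; exact image_id))
    refine this.trans (Eq.mpr (congrArg (fun x => x ≡ _ [MOD q]) ?_) (Nat.ModEq.refl _))
    have hf : ∀ A : T.fixedPoints, A.1.1 = ∅ := fun A => by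
      by_contra h
      exact hc ⟨_, A.1.2.1, nonempty_iff_ne_empty.2 h, congrArg Subtype.val A.2⟩
    split_ifs with h
    · exact Fintype.card_eq_one_iff.2 ⟨⟨⟨∅, h0, h⟩, Subtype.ext (image_empty t)⟩,
        fun A => Subtype.ext (Subtype.ext (hf A))⟩
    · exact Fintype.card_eq_zero_iff.2 ⟨fun A => h (by simpa [hf A] using A.1.2.2)⟩
  have h1 := key Even
  have h2 := key Odd
  have h3 : (Fintype.card {A // A ∈ K ∧ Even A.card} : ℚ) =
      Fintype.card {A // A ∈ K ∧ Odd A.card} := by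
    rw [← sub_eq_zero, ← hE, Fintype.card_subtype, Fintype.card_subtype, card_filter, card_filter]
    push_cast
    rw [← sum_sub_distrib]
    refine sum_congr rfl fun A _ => ?_
    by_cases hA : A ∈ K
    · rcases Nat.even_or_odd A.card with h | h
      · simp [hA, h, h.neg_one_pow, Nat.not_odd_iff_even.2 h]
      · simp [hA, h, h.neg_one_pow, Nat.not_even_iff_odd.2 h]
    · simp [hA]
  rw [Nat.cast_injective h3] at h1
  have := h1.symm.trans h2
  simp only [Even.zero, if_true, Nat.not_odd_zero, if_false] at this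
  exact hq.one_lt.ne' (Nat.dvd_one.1 (Nat.modEq_zero_iff_dvd.1 this))

variable {ι : Type*} [Fintype ι] [DecidableEq ι] {p : ℕ} [Fact p.Prime]

theorem oliver3 {K : Set (Finset V)} {φ : (ι → ZMod p) → Equiv.Perm V} (h0 : φ 0 = 1)
    (hadd : ∀ a b, φ (a + b) = φ a * φ b) (hlow : IsLowerSet K) (hK0 : ∅ ∈ K)
    (hK : ∀ (g : Equiv.Perm V), (g ∈ Set.range φ) → ∀ σ, σ.map g.toEmbedding ∈ K ↔ σ ∈ K)
    {r : V → ℕ} (hr : Function.Injective r) (hA : Acyc (ZMod p) r K) {g τ : Equiv.Perm V}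
    (hg : ∀ σ, σ.map g.toEmbedding ∈ K ↔ σ ∈ K) (hτ : ∀ σ, σ.map τ.toEmbedding ∈ K ↔ σ ∈ K)
    (hn : ∀ a, ∃ b, g * φ a = φ b * g) (hc : ∀ a, τ * φ a = φ a * τ) {U q : ℕ}
    (hU : τ * g = g ^ U * τ) (hq : q.Prime) (hτq : τ ^ q = 1) :
    ∃ σ ∈ K, σ.Nonempty ∧ ∀ v ∈ σ, (∀ a, φ a v ∈ σ) ∧ g v ∈ σ ∧ τ v ∈ σ := by
  classical
  have hn' : ∀ j a, ∃ b, g ^ j * φ a = φ b * g ^ j := fun j => by
    induction j with
    | zero => exact fun a => ⟨a, by simp⟩
    | succ j ih =>
      intro a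
      obtain ⟨b, hb⟩ := hn a
      obtain ⟨c, hc⟩ := ih b
      exact ⟨c, by rw [pow_succ, mul_assoc, hb, ← mul_assoc, hc, mul_assoc]⟩
  have hU' : ∀ j, τ * g ^ j = g ^ (U * j) * τ := fun j => by
    induction j with
    | zero => simp
    | succ j ih => rw [pow_succ, ← mul_assoc, ih, mul_assoc, hU, ← mul_assoc, ← pow_add, mul_add, mul_one]
  let H : Submonoid (Equiv.Perm V) :=
    { carrier := {h | ∃ a, ∃ j : ℕ, h = φ a * g ^ j}
      one_mem' := ⟨0, 0, by simp [h0]⟩
      mul_mem' := by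
        rintro _ _ ⟨a, j, rfl⟩ ⟨b, l, rfl⟩
        obtain ⟨c, hc⟩ := hn' j b
        exact ⟨a + c, j + l, by
          rw [hadd, pow_add, mul_assoc, ← mul_assoc (g ^ j), hc]; simp only [mul_assoc]⟩ }
  let s : Setoid V := ⟨fun x y => ∃ h ∈ H, h x = y, fun x => ⟨1, H.one_mem, rfl⟩, by
    rintro x _ ⟨h, hh, rfl⟩
    refine ⟨h ^ (orderOf h - 1), H.pow_mem hh _, ?_⟩
    rw [← Equiv.Perm.mul_apply, ← pow_succ, Nat.sub_add_cancel (orderOf_pos h), pow_orderOf_eq_one]
    rfl, by
    rintro x _ _ ⟨h, hh, rfl⟩ ⟨h', hh', rfl⟩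
    exact ⟨h' * h, H.mul_mem hh' hh, rfl⟩⟩
  have e1 : ∀ a x, Quotient.mk s (φ a x) = Quotient.mk s x := fun a x =>
    Eq.symm (Quotient.sound ⟨φ a, ⟨a, 0, by simp⟩, rfl⟩)
  have e2 : ∀ x, Quotient.mk s (g x) = Quotient.mk s x := fun x =>
    Eq.symm (Quotient.sound ⟨g, ⟨0, 1, by simp [h0]⟩, rfl⟩)
  obtain ⟨s0, hs0⟩ := exists_rank (Quotient (relS φ h0 hadd univ))
  obtain ⟨g', q'', a1, a2, a3, a4, _, a6⟩ := exists_induced (g := g) (K := K)
    (q := Quotient.mk (relS φ h0 hadd univ)) (q' := Quotient.mk s) Quotient.mk_surjective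
    Quotient.mk_surjective hg
    (fun x y h => by
      obtain ⟨a, _, rfl⟩ := Quotient.exact h
      obtain ⟨b, hb⟩ := hn a
      refine Quotient.sound ⟨b, fun i hi => absurd (mem_univ i) hi, ?_⟩
      rw [← Equiv.Perm.mul_apply, ← hb]; rfl)
    (fun x y h => by
      obtain ⟨a, _, rfl⟩ := Quotient.exact h
      exact (e1 a x).symm) e2
    (fun x y h => by
      obtain ⟨_, ⟨a, j, rfl⟩, rfl⟩ := Quotient.exact h
      exact ⟨j, Quotient.sound ⟨a, fun i hi => absurd (mem_univ i) hi, rfl⟩⟩)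
  have hE := lefschetz_quo hs0 a1 (quo_lower _ hlow) a2 a3 a4 (acyc_rat hs0 (quo_lower _ hlow)
    (acyc_relS h0 hadd hlow (fun a => hK _ ⟨a, rfl⟩) hr hA univ s0 hs0))
  rw [a6] at hE
  let t : Quotient s → Quotient s := Quotient.map τ (by
    rintro x _ ⟨_, ⟨a, j, rfl⟩, rfl⟩
    refine ⟨φ a * g ^ (U * j), ⟨a, _, rfl⟩, ?_⟩
    rw [← Equiv.Perm.mul_apply, ← Equiv.Perm.mul_apply, mul_assoc, ← hU', ← mul_assoc, ← hc,
      mul_assoc])
  have ht : ∀ j x, t^[j] (Quotient.mk s x) = Quotient.mk s ((τ ^ j) x) := fun j x => by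
    induction j with
    | zero => rfl
    | succ j ih => rw [Function.iterate_succ_apply', ih, pow_succ']; rfl
  obtain ⟨A, hA1, ⟨ω, hω⟩, hA3⟩ := exists_fixed (K := quo (Quotient.mk s) K)
    (by simpa [quo] using hK0) (by convert hE) hq t
    (funext fun ω => by
      obtain ⟨x, rfl⟩ := Quotient.mk_surjective ω
      rw [ht, hτq]; rfl)
    (fun A hA => by
      refine hlow (fun x hx => ?_) ((hτ _).2 hA)
      simp only [mem_filter, mem_univ, true_and, mem_image, mem_map] at hx ⊢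
      obtain ⟨ω, hω, e⟩ := hx
      refine ⟨τ.symm x, ?_, by simp⟩
      have e3 := congrArg t^[q - 1] e
      obtain ⟨y, rfl⟩ := Quotient.mk_surjective ω
      rw [← Function.iterate_succ_apply, ht, ht, Nat.succ_eq_add_one, Nat.sub_add_cancel hq.pos,
        hτq] at e3
      have e4 : τ ^ (q - 1) = τ.symm := eq_inv_of_mul_eq_one_left (by
        rw [← pow_succ, Nat.sub_add_cancel hq.pos, hτq])
      rw [← e4, ← e3]
      exact hω)
  obtain ⟨x, rfl⟩ := Quotient.mk_surjective ω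
  refine ⟨_, hA1, ⟨x, by simpa using hω⟩, fun v hv => ?_⟩
  simp only [mem_filter, mem_univ, true_and, e1, e2] at hv ⊢
  exact ⟨fun _ => hv, hv, hA3 ▸ mem_image_of_mem t hv⟩

end oliver

section degrees

variable {X : Type} [Fintype X] (G : SimpleGraph X)

/-- permutations that map edges to edges -/
def aut : Submonoid (Equiv.Perm X) where
  carrier := {π | ∀ x y, G.Adj x y → G.Adj (π x) (π y)}
  one_mem' := fun _ _ h => h
  mul_mem' := fun ha hb _ _ h => ha _ _ (hb _ _ h)

variable {G}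

open Classical in
lemma deg_ge {α : Type} [Fintype α] {x : X} (j : α → X) (hj : Function.Injective j)
    (h : ∀ a, G.Adj x (j a)) {π : Equiv.Perm X} (hπ : π ∈ aut G) :
    Fintype.card α ≤ G.degree (π x) := by
  rw [← SimpleGraph.card_neighborFinset_eq_degree]
  exact card_le_card_of_injOn (fun a => π (j a))
    (fun a _ => by simpa using hπ _ _ (h a)) fun a _ b _ e => hj (π.injective e)

open Classical in
lemma edges_ge {β : Type} [Fintype β] (c : β → X) (hc : Function.Injective c) {D : ℕ}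
    (h : ∀ b, D ≤ G.degree (c b)) : Fintype.card β * D ≤ 2 * G.edgeSet.ncard := by
  rw [← SimpleGraph.coe_edgeFinset, Set.ncard_coe_finset,
    ← SimpleGraph.sum_degrees_eq_twice_card_edges]
  calc _ ≤ ∑ b, G.degree (c b) := by
        simpa using card_nsmul_le_sum univ (fun b => G.degree (c b)) D fun b _ => h b
    _ = ∑ x ∈ univ.image c, G.degree x := by rw [sum_image fun a _ b _ e => hc e]
    _ ≤ _ := sum_le_sum_of_subset (subset_univ _)

end degrees

section graph

variable {k p : ℕ} {R : Finset ℕ}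

/-- `k` blocks of size `p` and one block of size `r` for each `r` in `R` -/
abbrev Vt (k p : ℕ) (R : Finset ℕ) : Type := (ZMod k × ZMod p) ⊕ (Σ r : R, ZMod r.1)

/-- translations of the blocks of size `p` -/
def tr (R : Finset ℕ) (b : ZMod k → ZMod p) : Equiv.Perm (Vt k p R) :=
  Equiv.sumCongr (Equiv.prodCongrRight fun i => Equiv.addRight (b i)) (Equiv.refl _)

/-- twisted rotation of the blocks of size `p`, shift of the other blocks -/
def gg (k : ℕ) (R : Finset ℕ) (w : (ZMod p)ˣ) : Equiv.Perm (Vt k p R) :=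
  Equiv.sumCongr ((Equiv.prodCongrRight fun i => (if i = 0 then w else 1).mulLeft).trans
    (Equiv.prodCongr (Equiv.addRight 1) (Equiv.refl _)))
    (Equiv.sigmaCongrRight fun _ => Equiv.addRight 1)

/-- multiplications in the other blocks -/
def ta (k p : ℕ) (u : ∀ r : R, (ZMod r.1)ˣ) : Equiv.Perm (Vt k p R) :=
  Equiv.sumCongr (Equiv.refl _) (Equiv.sigmaCongrRight fun r => (u r).mulLeft)

lemma tr_inl (b : ZMod k → ZMod p) (i : ZMod k) (x : ZMod p) :
    tr R b (.inl (i, x)) = .inl (i, x + b i) := rfl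

lemma tr_inr (b : ZMod k → ZMod p) (y : Σ r : R, ZMod r.1) : tr R b (.inr y) = .inr y := rfl

lemma gg_inl (w : (ZMod p)ˣ) (j : ℕ) (i : ZMod k) (x : ZMod p) : (gg k R w ^ j) (.inl (i, x)) =
    .inl (i + j, (∏ l ∈ range j, if i + l = 0 then w else 1 : (ZMod p)ˣ) * x) := by
  induction j with
  | zero => simp
  | succ j ih =>
    rw [pow_succ', Equiv.Perm.mul_apply, ih, prod_range_succ_comm, Units.val_mul, mul_assoc,
      Nat.cast_succ, ← add_assoc]
    rfl

lemma gg_inr (w : (ZMod p)ˣ) (j : ℕ) (r : R) (y : ZMod r.1) :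
    (gg k R w ^ j) (.inr ⟨r, y⟩) = .inr ⟨r, y + j⟩ := by
  induction j with
  | zero => simp
  | succ j ih => rw [pow_succ', Equiv.Perm.mul_apply, ih, Nat.cast_succ, ← add_assoc]; rfl

lemma gg_mul [NeZero k] (w : (ZMod p)ˣ) (m : ℕ) (i : ZMod k) (x : ZMod p) :
    (gg k R w ^ (k * m)) (.inl (i, x)) = .inl (i, (w : ZMod p) ^ m * x) := by
  induction m with
  | zero => simp
  | succ m ih =>
    rw [mul_add, mul_one, add_comm, pow_add, Equiv.Perm.mul_apply, ih, gg_inl,
      prod_eq_single (-i).val, pow_succ', mul_assoc]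
    · simp
    · intro l hl h
      refine if_neg fun e => h ?_
      rw [← ZMod.val_cast_of_lt (mem_range.1 hl), eq_neg_of_add_eq_zero_right e]
    · exact fun h => absurd (mem_range.2 (ZMod.val_lt _)) h

lemma ta_inl (u : ∀ r : R, (ZMod r.1)ˣ) (j : ℕ) (x : ZMod k × ZMod p) :
    (ta k p u ^ j) (.inl x) = .inl x := by
  induction j with
  | zero => rfl
  | succ j ih => rw [pow_succ', Equiv.Perm.mul_apply, ih]; rfl

lemma ta_inr (u : ∀ r : R, (ZMod r.1)ˣ) (j : ℕ) (r : R) (y : ZMod r.1) :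
    (ta k p u ^ j) (.inr ⟨r, y⟩) = .inr ⟨r, (u r : ZMod r.1) ^ j * y⟩ := by
  induction j with
  | zero => simp
  | succ j ih => rw [pow_succ', Equiv.Perm.mul_apply, ih, pow_succ', mul_assoc]; rfl

lemma edge_bound [NeZero k] [Fact p.Prime] [∀ r : R, Fact r.1.Prime] {q D : ℕ} (hq : D ≤ p)
    (hD : D ≤ q) (hR : ∀ r ∈ R, D ≤ r) {w : (ZMod p)ˣ} (hw : ∀ x, x ∈ Submonoid.powers w)
    {u : ∀ r : R, (ZMod r.1)ˣ} (hu : ∀ r, orderOf (u r) = q) {G : SimpleGraph (Vt k p R)}
    (h1 : ∀ b, tr R b ∈ aut G) (h2 : gg k R w ∈ aut G) (h3 : ta k p u ∈ aut G) {x y : Vt k p R}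
    (h : G.Adj x y) : k * p * (p - 1) ≤ 2 * G.edgeSet.ncard ∨
      ∃ r ∈ R, r * D ≤ 2 * G.edgeSet.ncard := by
  classical
  have key : ∀ (r : R) (a : ZMod r.1) (α : Type) [Fintype α] (j : α → Vt k p R),
      Function.Injective j → (∀ c, G.Adj (.inr ⟨r, a⟩) (j c)) → D ≤ Fintype.card α →
      ∃ r ∈ R, r * D ≤ 2 * G.edgeSet.ncard := fun r a α _ j hj hc hα => by
    refine ⟨r, r.2, ?_⟩
    have := edges_ge (G := G) (fun a : ZMod r.1 => .inr ⟨r, a⟩) (fun a b e => by simpa using e)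
      (D := D) fun a' => by
        have := deg_ge j hj hc (pow_mem h2 (a' - a).val)
        rw [gg_inr, ZMod.natCast_zmod_val, add_sub_cancel] at this
        exact hα.trans this
    rwa [ZMod.card] at this
  have mixed : ∀ (r : R) (a : ZMod r.1) (i : ZMod k) (b : ZMod p),
      G.Adj (.inr ⟨r, a⟩) (.inl (i, b)) → ∃ r ∈ R, r * D ≤ 2 * G.edgeSet.ncard :=
    fun r a i b h => key r a (ZMod p) (fun c => .inl (i, c)) (fun a b e => by simpa using e)
      (fun c => by simpa [tr_inl, tr_inr] using h1 (fun _ => c - b) _ _ h) (by rwa [ZMod.card])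
  rcases x with ⟨i, a⟩ | ⟨r, a⟩ <;> rcases y with ⟨j, b⟩ | ⟨r', b⟩
  · left
    have hc : ∀ c : (ZMod p)ˣ, G.Adj (.inl (i, a)) (.inl (j, if i = j then a + c * (b - a) else c)) := by
      intro c
      split_ifs with e
      · subst e
        obtain ⟨m, rfl⟩ := hw c
        have := h1 (fun _ => a - (w : ZMod p) ^ m * a) _ _ (pow_mem h2 (k * m) _ _ h)
        rw [gg_mul, gg_mul, tr_inl, tr_inl] at this
        convert this using 3 <;> simp
        ring
      · simpa [tr_inl, e] using h1 (Pi.single j (c - b)) _ _ h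
    have := edges_ge (G := G) Sum.inl Sum.inl_injective (D := p - 1) fun ⟨i', a'⟩ => by
      obtain ⟨a1, e⟩ : ∃ a1, (gg k R w ^ (i' - i).val) (.inl (i, a)) = .inl (i', a1) :=
        ⟨_, by rw [gg_inl, ZMod.natCast_zmod_val, add_sub_cancel]⟩
      have := deg_ge _ (fun c c' e => by
        split_ifs at e with e'
        · subst e'
          have h0 : b - a ≠ 0 := fun h0 => h.ne (by rw [sub_eq_zero.1 h0])
          exact Units.ext (by simpa [h0] using e)
        · exact Units.ext (by simpa using e)) hc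
        (mul_mem (h1 fun _ => a' - a1) (pow_mem h2 (i' - i).val))
      rwa [Equiv.Perm.mul_apply, e, tr_inl, add_sub_cancel, ZMod.card_units] at this
    rwa [Fintype.card_prod, ZMod.card, ZMod.card] at this
  · exact Or.inr (mixed _ _ _ _ h.symm)
  · exact Or.inr (mixed _ _ _ _ h)
  · right
    by_cases e : r = r'
    · subst e
      have h0 : b - a ≠ 0 := fun h0 => h.ne (by rw [sub_eq_zero.1 h0])
      refine key r a (Fin q) (fun l => .inr ⟨r, a + (u r : ZMod r.1) ^ l.1 * (b - a)⟩)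
        (fun l l' e => ?_) (fun l => ?_) (by simpa using hD)
      · have e1 : u r ^ l.1 = u r ^ l'.1 := Units.ext (by simpa [h0] using e)
        exact Fin.ext (pow_injOn_Iio_orderOf (by simp [hu]) (by simp [hu]) e1)
      · have := pow_mem h2 (a - (u r : ZMod r.1) ^ l.1 * a).val _ _ (pow_mem h3 l.1 _ _ h)
        rw [ta_inr, ta_inr, gg_inr, gg_inr, ZMod.natCast_zmod_val] at this
        convert this using 3 <;> ring
    · refine key r a (ZMod r'.1) (fun c => .inr ⟨r', c⟩) (fun a b e => by simpa using e)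
        (fun c => ?_) (by rw [ZMod.card]; exact hR _ r'.2)
      have h0 : ((r.1 : ℕ) : ZMod r'.1) ≠ 0 := fun h0 => e (Subtype.ext
        ((Nat.prime_dvd_prime_iff_eq Fact.out Fact.out).1
          ((ZMod.natCast_eq_zero_iff _ _).1 h0)).symm)
      have := pow_mem h2 (r.1 * ((c - b) / (r.1 : ℕ)).val) _ _ h
      rw [gg_inr, gg_inr, Nat.cast_mul, Nat.cast_mul, ZMod.natCast_self, zero_mul, add_zero,
        ZMod.natCast_zmod_val, mul_div_cancel₀ _ h0, add_sub_cancel] at this
      exact this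

lemma exists_mult {q : ℕ} (hq : q.Prime) (R : Finset ℕ) {M : ℕ} (c : ℕ)
    (hR : ∀ r ∈ R, r.Prime ∧ q ∣ r - 1 ∧ r.Coprime M) :
    ∃ U : ℕ, U ≡ c [MOD M] ∧ ∀ r ∈ R, ∃ u : (ZMod r)ˣ, (u : ZMod r) = U ∧ orderOf u = q := by
  induction R using Finset.induction_on generalizing M c with
  | empty => exact ⟨c, rfl, by simp⟩
  | insert r R hr ih =>
    obtain ⟨h1, h2, h3⟩ := hR r (mem_insert_self _ _)
    have := Fact.mk h1
    have := Fact.mk hq
    obtain ⟨u, hu⟩ := exists_prime_orderOf_dvd_card (G := (ZMod r)ˣ) q (by rwa [ZMod.card_units])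
    obtain ⟨c', a1, a2⟩ := Nat.chineseRemainder h3.symm c (u : ZMod r).val
    obtain ⟨U, b1, b2⟩ := ih (M := M * r) c' fun r' hr' => by
      obtain ⟨d1, d2, d3⟩ := hR r' (mem_insert_of_mem hr')
      exact ⟨d1, d2, d3.mul_right ((Nat.coprime_primes d1 h1).2 fun e => hr (e ▸ hr'))⟩
    refine ⟨U, (b1.of_mul_right r).trans a1, fun r' hr' => ?_⟩
    rcases mem_insert.1 hr' with rfl | hr'
    · refine ⟨u, ?_, hu⟩
      rw [(ZMod.natCast_eq_natCast_iff _ _ _).2 ((b1.of_mul_left M).trans a2),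
        ZMod.natCast_zmod_val]
    · exact b2 r' hr'

theorem topo {n d m q D : ℕ} {f : SimpleGraph (Fin n) → Prop} (hf : Setup n d f)
    (hd : d < n.choose 2) (hm : ∀ G, f G → G.edgeSet.ncard ≤ m) (hp : p.Prime) (hq : q.Prime)
    (hqp : D ≤ p) (hD : D ≤ q) (hn : n = k * p + ∑ r ∈ R, r) (h1 : 2 * m < k * p * (p - 1))
    (hR : ∀ r ∈ R, r.Prime ∧ q ∣ r - 1 ∧ r.Coprime (k * (p - 1)) ∧ 2 * m < r * D) : False := by
  classical
  have : NeZero k := ⟨by rintro rfl; simp at h1⟩
  have := Fact.mk hp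
  have : ∀ r : R, Fact r.1.Prime := fun r => ⟨(hR _ r.2).1⟩
  obtain ⟨U, hU, hu⟩ := exists_mult hq R 1 fun r hr => ⟨(hR r hr).1, (hR r hr).2.1, (hR r hr).2.2.1⟩
  choose u hu1 hu2 using fun r : R => hu r.1 r.2
  obtain ⟨w, hw⟩ := IsCyclic.exists_monoid_generator (α := (ZMod p)ˣ)
  have hc : Fintype.card (Vt k p R) = n := by
    simp only [Fintype.card_sum, Fintype.card_prod, Fintype.card_sigma, ZMod.card, hn,
      sum_coe_sort R fun r => r]
  let e : Vt k p R ≃ Fin n := Fintype.equivFinOfCardEq hc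
  let a : Equiv.Perm (Vt k p R) →* Equiv.Perm (H49.Pr (id : Vt k p R → Vt k p R)) :=
    { toFun := fun σ => H49.act σ fun _ _ => σ.injective.eq_iff
      map_one' := Equiv.ext fun v => Subtype.ext (by simp [H49.act_val])
      map_mul' := fun σ τ => Equiv.ext fun v => Subtype.ext (by simp [H49.act_val, Sym2.map_map]) }
  let K : Set (Finset (H49.Pr (id : Vt k p R → Vt k p R))) := {A | InG f (H49.gr A)}
  have hK : ∀ σ (A : Finset _), A.map (a σ).toEmbedding ∈ K ↔ A ∈ K := fun σ A => by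
    have h : (H49.gr (A.map (a σ).toEmbedding)).comap σ = H49.gr A :=
      H49.gr_map (lab := id) σ (fun _ _ => σ.injective.eq_iff) A
    refine ⟨inG_of_le hf σ fun x y hxy => ?_, inG_of_le hf σ.symm fun x y hxy => ?_⟩
    · rwa [← h] at hxy
    · rw [← h]
      simpa using hxy
  obtain ⟨r, hr⟩ := exists_rank (H49.Pr (id : Vt k p R → Vt k p R))
  have hA : Acyc (ZMod p) r K := by
    have := inG_acyc hf e (ZMod p) (V := H49.Pr (id : Vt k p R → Vt k p R))
      ⟨fun v => v.1, fun _ _ h => Subtype.ext h⟩ ∅ hr (by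
        rw [← hc, ← Sym2.card_subtype_not_diag] at hd
        refine hd.trans_eq (Fintype.card_congr (Equiv.subtypeEquivRight fun v => by simp)))
    convert this using 2
    ext A
    refine iff_of_eq (congrArg (InG f) ?_)
    ext x y
    simp only [SimpleGraph.fromEdgeSet_adj, empty_union, coe_map, Set.mem_image, mem_coe]
    exact ⟨fun h => ⟨h, h.ne⟩, fun h => h.1⟩
  have hgU : ∀ x, (gg k R w ^ U) (.inl x) = gg k R w (.inl x) := fun ⟨i, x⟩ => by
    have h2 : ∀ j i x, (gg k R w ^ (k * (p - 1) * j)) (.inl (i, x)) = .inl (i, x) := fun j i x => by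
      rw [mul_assoc, gg_mul, pow_mul, ZMod.pow_card_sub_one_eq_one w.ne_zero, one_pow, one_mul]
    rw [← Nat.mod_add_div U (k * (p - 1)), pow_add, Equiv.Perm.mul_apply, h2, hU]
    conv_rhs => rw [← pow_one (gg k R w), ← Nat.mod_add_div 1 (k * (p - 1)), pow_add,
      Equiv.Perm.mul_apply, h2]
  obtain ⟨σ, hσ, ⟨v, hv⟩, hinv⟩ := oliver3 (K := K) (φ := fun b => a (tr R b))
    (g := a (gg k R w)) (τ := a (ta k p u)) (U := U) (q := q)
    (by
      rw [← a.map_one]
      congr 1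
      ext (⟨i, x⟩ | y) <;> simp [tr_inl, tr_inr])
    (fun b c => by
      rw [← a.map_mul]
      congr 1
      ext (⟨i, x⟩ | y) <;> simp [tr_inl, tr_inr, add_comm, add_left_comm])
    (fun A B h hA => inG_of_le hf (Equiv.refl _) (fun x y hxy => H49.gr_mono h hxy) hA)
    ⟨e, hf.anti _ _ (fun x y hxy => by
      obtain ⟨_, _, ⟨_, h, _⟩, _⟩ := (SimpleGraph.map_adj _ _ _ _).1 hxy
      simp at h) hf.bot⟩
    (by rintro _ ⟨b, rfl⟩; exact hK _) hr hA (hK _) (hK _)
    (fun b => ⟨fun i => (if i - 1 = 0 then w else 1 : (ZMod p)ˣ) * b (i - 1), by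
      rw [← a.map_mul, ← a.map_mul]
      congr 1
      ext (⟨i, x⟩ | ⟨r, y⟩)
      · have := gg_inl (R := R) w 1 i
        simp only [pow_one] at this
        simp [tr_inl, this, mul_add]
      · rfl⟩)
    (fun b => by
      rw [← a.map_mul, ← a.map_mul]
      congr 1
      ext (⟨i, x⟩ | ⟨r, y⟩) <;> rfl)
    (by
      rw [← a.map_pow, ← a.map_mul, ← a.map_mul]
      congr 1
      ext (x | ⟨r, y⟩)
      · exact (hgU x).symm
      · have h2 := ta_inr (k := k) (p := p) u 1 r
        have h3 := gg_inr (k := k) w 1 r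
        simp only [pow_one] at h2 h3
        rw [Equiv.Perm.mul_apply, Equiv.Perm.mul_apply, h2, h3, h2, gg_inr, hu1, mul_add]
        simp) hq
    (by
      rw [← a.map_pow, ← a.map_one]
      congr 1
      ext (x | ⟨r, y⟩)
      · exact ta_inl u q x
      · rw [ta_inr, ← Units.val_pow_eq_pow_val, ← hu2 r, pow_orderOf_eq_one]
        simp)
  have haut : ∀ π, (∀ v ∈ σ, a π v ∈ σ) → π ∈ aut (H49.gr σ) := fun π h x y ⟨v, hv, e⟩ =>
    ⟨_, h v hv, by rw [show (a π v).1 = v.1.map π from rfl, e]; rfl⟩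
  obtain ⟨x, y, hxy, rfl⟩ := H49.exists_mkP v
  have hb := edge_bound hqp hD (fun r hr => by
      have := Nat.le_of_dvd (by have := (hR r hr).1.two_le; omega) (hR r hr).2.1
      omega) hw hu2 (fun b => haut _ fun v hv => (hinv v hv).1 b)
    (haut _ fun v hv => (hinv v hv).2.1) (haut _ fun v hv => (hinv v hv).2.2)
    (x := x) (y := y) ⟨_, hv, rfl⟩
  have h3 := hm _ ((inG_iff hf _ e).1 hσ)
  rw [SimpleGraph.edgeSet_map, Set.ncard_image_of_injective _ (Function.Embedding.injective _)] at h3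
  rcases hb with hb | ⟨r, hr, hb⟩
  · omega
  · have := (hR r hr).2.2.2
    omega

end graph

end Pool.Agent.MP_257582_lc.H99
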